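import Pool.Agent.H91.D2.Tlc5
import Pool.Agent.H31.W1.H80.GEN.Chn
import Pool.Agent.H31.W1.H91.D2.Tlc4

/-!
# The entropy fields of `TL`: the quantities of the letters

`pi_jet`: the jets of the own paths over a closed frame are the quantity `qJet`. `tm_cls`: the time.
`dig_le`: digits of vectors. `zc_cl2`: the closed part of the record of the ball.
-/

set_option autoImplicit false

namespace Pool.W.LA91

open Pool.LA91

open Finset Real MvPolynomial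
open Pool.Agent.H49.Ent Pool.Agent.H32.Dense Pool.STK Pool.KA Pool.KSAT Pool.K2S Pool.PB Pool.GEN
open Pool.S6C Pool.RCD Pool.D2R Pool.CHT Pool.D2G30 Pool.V1E
open Pool.PB.Trl (rt rt_mem t_rt)
open Pool.GRD (LbP)

variable {m : ℕ}


/-- **A closed frame gives labels.** -/
theorem lb_of {J : ℕ} {F : Pool.KA.Fam m J} {A : F.Ω → Prop} {c : ℕ → Fin m} {d D wb e : ℕ} {gx : ℕ → ℕ}
    {G₀ : Pool.GEN.PtT F → ℕ → MvPolynomial (Option (Fin m)) ℝ}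
    {H₀ : Pool.GEN.LnT F → ℕ → MvPolynomial (Option (Fin m)) ℝ}
    (h : Pool.W.GEN.ChOK F c d (fun _ => D) wb wb e gx A G₀ H₀)
    (h0 : ∀ ω, A ω → ∀ l < d, G₀ (Pool.PB.ptr F J ω) l = H₀ (Pool.KSAT.slam F wb ω) l) {i P : ℕ} (hi : i < d)
    (hP : P ≤ gx i) :
    Pool.GRD.LbP F ((range i).image c) (c i) D J wb P A
      (V := {G : MvPolynomial (Option (Fin m)) ℝ // G.totalDegree ≤ D ∧ Pool.GEN.DepC c i G})
      (fun x => ⟨G₀ x i, h.degG x i, h.depG x i⟩) (fun s => ⟨H₀ s i, h.degH s i, h.depH s i⟩)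
      (fun G => G.1) where
  deg v := v.2.1
  dep v b b' h1 h2 := v.2.2 b b' h1 fun l hl => h2 (c l) (by
    rw [Finset.mem_image]
    exact ⟨l, by rw [Finset.mem_range]; exact hl, rfl⟩)
  cls ω hω := Subtype.ext (h0 ω hω i hi)
  pos ω hω := by
    have h1 := h.pos ω hω i hi
    rw [h0 ω hω i hi] at h1
    exact h1.trans (one_div_le_one_div_of_le (by positivity)
      (pow_le_pow_right₀ (by norm_num) hP))

/-- **The jets of the own paths over a closed frame** are the quantity `qJet`. -/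
theorem pi_jet {J : ℕ} {F : Pool.KA.Fam m J} {A : F.Ω → Prop} {c : ℕ → Fin m} {d D wb e : ℕ}
    {gx : ℕ → ℕ} {G₀ : Pool.GEN.PtT F → ℕ → MvPolynomial (Option (Fin m)) ℝ}
    {H₀ : Pool.GEN.LnT F → ℕ → MvPolynomial (Option (Fin m)) ℝ}
    (h : Pool.W.GEN.ChOK F c d (fun _ => D) wb wb e gx A G₀ H₀)
    (h0 : ∀ ω, A ω → ∀ l < d, G₀ (Pool.PB.ptr F J ω) l = H₀ (Pool.KSAT.slam F wb ω) l) {b e₀ : ℝ} {sn : ℕ → ℝ}
    {K j : ℕ} {N : Fin d → ℝ} (hJ : 1 ≤ J) (hwb : wb = ⌊b * J⌋₊)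
    (hgx : ∀ i < d, (sn i - e₀) * J ≤ gx i)
    (hjet : ∀ ω, A ω → ∀ i < d, |Pool.LA91.ojet F (c i) j (G₀ (Pool.PB.ptr F J ω) i) ω| ≤ 2 ^ J)
    (hK : D ≤ K) (hN : ∀ i, |N i| + 3 ≤ K) :
    (Pool.LA91.Qt.pi fun i : Fin d => Pool.LA91.qJet m ((range (i : ℕ)).image c) (c i) j b (sn i) (N i)).P K e₀ J F A
      (fun ω i => ⌊(2 : ℝ) ^ (N i * J) * Pool.LA91.ojet F (c i) j (G₀ (Pool.PB.ptr F J ω) i) ω⌋) := by
  subst hwb
  intro i
  have hJ1 : (1 : ℝ) ≤ J := by exact_mod_cast hJ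
  refine ⟨?_, _, _, _, _, (Pool.W.LA91.lb_of h h0 i.2 (P := ⌊(sn i - e₀) * J⌋₊) (Nat.floor_le_of_le
    (hgx i i.2))).mono (Finset.Subset.refl _) hK le_rfl, fun ω hω => ?_⟩
  · have h1 : ∀ ω, A ω → |((⌊(2 : ℝ) ^ (N i * J) * Pool.LA91.ojet F (c i) j (G₀ (Pool.PB.ptr F J ω) i) ω⌋ : ℤ) : ℝ)| ≤
        2 ^ (|N i| * J) * 2 ^ J + 1 := by
      intro ω hω
      have h2 := hjet ω hω i i.2
      have h3 : (2 : ℝ) ^ (N i * J) ≤ 2 ^ (|N i| * J) := by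
        refine Real.rpow_le_rpow_of_exponent_le (by norm_num) ?_
        exact mul_le_mul_of_nonneg_right (le_abs_self _) (by linarith)
      have h4 : (0 : ℝ) < 2 ^ (N i * J) := Real.rpow_pos_of_pos (by norm_num) _
      have h5 : |(2 : ℝ) ^ (N i * J) * Pool.LA91.ojet F (c i) j (G₀ (Pool.PB.ptr F J ω) i) ω| ≤
          2 ^ (|N i| * J) * 2 ^ J := by
        rw [abs_mul, abs_of_pos h4]
        exact mul_le_mul h3 h2 (abs_nonneg _) (h4.le.trans h3)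
      have h6 := Int.floor_le ((2 : ℝ) ^ (N i * J) * Pool.LA91.ojet F (c i) j (G₀ (Pool.PB.ptr F J ω) i) ω)
      have h7 := Int.lt_floor_add_one
        ((2 : ℝ) ^ (N i * J) * Pool.LA91.ojet F (c i) j (G₀ (Pool.PB.ptr F J ω) i) ω)
      rw [abs_le] at h5 ⊢
      constructor <;> linarith [h5.1, h5.2]
    refine (Pool.LA91.cnt_le_of_abs (p := F.p) (by positivity) h1).trans ?_
    have h2 : (1 : ℝ) ≤ 2 ^ (|N i| * J) := Real.one_le_rpow (by norm_num) (by positivity)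
    have h3 : (1 : ℝ) ≤ 2 ^ J := one_le_pow₀ (by norm_num)
    have h4 : (1 : ℝ) ≤ 2 ^ (|N i| * J) * 2 ^ J := one_le_mul_of_one_le_of_one_le h2 h3
    have h5 : (2 : ℝ) ^ (|N i| * J) * 2 ^ J ≤ Real.exp ((|N i| + 1) * J) := by
      rw [← Real.rpow_natCast, ← Real.rpow_add (by norm_num), Real.rpow_def_of_pos (by norm_num)]
      refine Real.exp_le_exp.2 ?_
      have h6 : Real.log 2 ≤ 1 := by
        have := Real.log_two_lt_d9
        linarith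
      have h7 : 0 ≤ |N i| * J + J := by positivity
      calc Real.log 2 * (|N i| * J + J) ≤ 1 * (|N i| * J + J) :=
            mul_le_mul_of_nonneg_right h6 h7
        _ = (|N i| + 1) * J := by ring
    have h6 : (5 : ℝ) ≤ Real.exp (2 * J) := by
      have h7 := Real.exp_one_gt_d9
      have h8 : Real.exp 2 = Real.exp 1 * Real.exp 1 := by rw [← Real.exp_add]; norm_num
      have h9 : Real.exp 2 ≤ Real.exp (2 * J) := Real.exp_le_exp.2 (by linarith)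
      nlinarith
    calc 2 * ((2 : ℝ) ^ (|N i| * J) * 2 ^ J + 1) + 1 ≤ 5 * (2 ^ (|N i| * J) * 2 ^ J) := by
          linarith
      _ ≤ Real.exp (2 * J) * Real.exp ((|N i| + 1) * J) :=
          mul_le_mul h6 h5 (by positivity) (Real.exp_pos _).le
      _ = Real.exp ((|N i| + 3) * J) := by
          rw [← Real.exp_add]
          ring_nf
      _ ≤ Real.exp (K * J) :=
          Real.exp_le_exp.2 (mul_le_mul_of_nonneg_right (hN i) (by linarith))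
  · show ⌊(2 : ℝ) ^ (N i * J) * Pool.LA91.ojet F (c i) j (G₀ (Pool.PB.ptr F J ω) i) ω⌋ =
      ⌊(2 : ℝ) ^ (N i * J) * Pool.LA91.ojet F (c i) j (H₀ (Pool.KSAT.slam F ⌊b * J⌋₊ ω) i) ω⌋
    rw [h0 ω hω i i.2]


/-- The closed part of the record of the ball is closed. -/
theorem zc_cl2 {J : ℕ} {F : Pool.KA.Fam m J} {A : F.Ω → Prop} {c : ℕ → Fin m} {d D e M wb W Wa : ℕ}
    {gx : ℕ → ℕ} {V V' : Type} {v : F.Ω → V} {vL : Pool.GEN.LnT F → V} {v' : F.Ω → V'}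
    {G₀ : Pool.GEN.PtT F → ℕ → MvPolynomial (Option (Fin m)) ℝ}
    {G₁ G₂ : Pool.GEN.PtT F → MvPolynomial (Option (Fin m)) ℝ}
    {H₀ : Pool.GEN.LnT F → ℕ → MvPolynomial (Option (Fin m)) ℝ}
    {H₁ H₂ : Pool.GEN.LnT F → MvPolynomial (Option (Fin m)) ℝ}
    (I : Pool.W.LA91.TlI F A c d D e M gx wb W Wa v vL v' G₀ G₁ G₂ H₀ H₁ H₂) {b w a o : ℝ}
    (hb : wb = ⌊b * J⌋₊) (hw : W = ⌊w * J⌋₊) (ha : Wa = ⌊a * J⌋₊) (h1 : b ≤ w) (h2 : w ≤ a)
    (h3 : a ≤ o) (ho : o ≤ 1) (hv : Pool.RCD.Cl2 (Pool.PB.ptr F J) (Pool.RCD.vg w J F) A v)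
    (hv' : Pool.RCD.Cl2 (Pool.PB.ptr F J) (Pool.RCD.vg a J F) A v') :
    Pool.RCD.Cl2 (Pool.PB.ptr F J) (Pool.RCD.vg o J F) A (Pool.LA91.zcF F d v v' G₀ G₁ G₂) := by
  have hid : ∃ φ : Pool.GEN.PtT F → Pool.GEN.PtT F, ∀ ω, A ω → Pool.PB.ptr F J ω = φ (Pool.PB.ptr F J ω) :=
    ⟨fun x => x, fun _ _ => rfl⟩
  have up : ∀ {a' : ℝ}, a' ≤ o → ∃ ψ : Pool.GEN.LnT F → Pool.GEN.LnT F, ∀ ω, A ω → Pool.RCD.vg a' J F ω =
      ψ (Pool.RCD.vg o J F ω) := by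
    intro a' h
    obtain ⟨φ, hφ⟩ := Pool.RCD.vg_mono h ho J F
    exact ⟨φ, fun ω _ => hφ ω⟩
  have c0 : Pool.RCD.Cl2 (Pool.PB.ptr F J) (Pool.RCD.vg b J F) A (fun ω => Pool.V1E.trn d (G₀ (Pool.PB.ptr F J ω))) := by
    refine ⟨⟨fun x => Pool.V1E.trn d (G₀ x), fun _ _ => rfl⟩, fun s => Pool.V1E.trn d (H₀ s), fun ω hω => ?_⟩
    have h4 := I.cl0 ω hω
    rw [hb] at h4
    show Pool.V1E.trn d (G₀ (Pool.PB.ptr F J ω)) = Pool.V1E.trn d (H₀ (Pool.KSAT.slam F ⌊b * J⌋₊ ω))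
    unfold Pool.V1E.trn
    funext l
    by_cases hl : l < d
    · rw [if_pos hl, if_pos hl, h4 l hl]
    · rw [if_neg hl, if_neg hl]
  have c1 : Pool.RCD.Cl2 (Pool.PB.ptr F J) (Pool.RCD.vg w J F) A (fun ω => G₁ (Pool.PB.ptr F J ω)) := by
    refine ⟨⟨fun x => G₁ x, fun _ _ => rfl⟩, fun s => H₁ s, fun ω hω => ?_⟩
    have h4 := I.cl1 ω hω
    rw [hw] at h4
    exact h4
  have c2 : Pool.RCD.Cl2 (Pool.PB.ptr F J) (Pool.RCD.vg a J F) A (fun ω => G₂ (Pool.PB.ptr F J ω)) := by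
    refine ⟨⟨fun x => G₂ x, fun _ _ => rfl⟩, fun s => H₂ s, fun ω hω => ?_⟩
    have h4 := I.cl2 ω hω
    rw [ha] at h4
    exact h4
  exact ((hv'.mono hid (up h3)).join (c2.mono hid (up h3))).join
    ((hv.mono hid (up (h2.trans h3))).join
      ((c0.mono hid (up (h1.trans (h2.trans h3)))).join (c1.mono hid (up (h2.trans h3)))))

end Pool.W.LA91
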