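import Pool.Agent.H91.D2.Tlc4
import Pool.Agent.H57.W1.H91.D2.Tlc3
import Pool.Agent.H31.W1.H80.GEN.Chn
import Pool.Agent.H31.W1.H91.D2.Tlc4

/-!
# The entropy fields of `TL`: one law, with the letters of the family

`TlI`: the closed frame, the closed charts and the records. `tl_law`: the fields `fr` and `full` from
the free velocities, the fullness of the coordinates, and the few bits of the positions given the
records.
-/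

set_option autoImplicit false

namespace Pool.W.LA91

open Pool.LA91

open Finset Real MvPolynomial
open Pool.Agent.H49.Ent Pool.Agent.H32.Dense Pool.STK Pool.KA Pool.KSAT Pool.K2S Pool.PB Pool.GEN
open Pool.S6C Pool.RCD Pool.D2R Pool.CHT Pool.D2G30 Pool.V1E
open Pool.PB.Trl (rt rt_mem t_rt)

variable {m J : ℕ}


section law

variable {F : Pool.KA.Fam m J} {q : F.Ω → ℝ} {A : F.Ω → Prop} {c : ℕ → Fin m} {s : ℕ → ℕ}
  {d D e M wb W Wa Q k : ℕ} {gx : ℕ → ℕ} {qe : Fin d → ℕ} {V V' V₂ : Type} {v : F.Ω → V}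
  {vL : Pool.GEN.LnT F → V} {v' : F.Ω → V'} {z2 : F.Ω → V₂}
  {G₀ : Pool.GEN.PtT F → ℕ → MvPolynomial (Option (Fin m)) ℝ}
  {G₁ G₂ : Pool.GEN.PtT F → MvPolynomial (Option (Fin m)) ℝ}
  {H₀ : Pool.GEN.LnT F → ℕ → MvPolynomial (Option (Fin m)) ℝ}
  {H₁ H₂ : Pool.GEN.LnT F → MvPolynomial (Option (Fin m)) ℝ}


/-- The record of the ball knows the time, the side information and the record of the window. -/
theorem kz_det (hqA : ∀ ω, 0 < q ω → A ω)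
    (I : Pool.W.LA91.TlI F A c d D e M gx wb W Wa v vL v' G₀ G₁ G₂ H₀ H₁ H₂) :
    Pool.Agent.H49.Ent.Det q (Pool.V1E.kaF F c s d W Q v G₀ G₁) (fun ω => (v ω, F.W ω)) ∧
      Pool.Agent.H49.Ent.Det q (Pool.V1E.kzF F c s d W Q v v' G₀ G₁ G₂) (Pool.V1E.kaF F c s d W Q v G₀ G₁) := by
  refine ⟨fun ω ω' hω hω' hh => ?_, fun ω ω' _ _ hh => (Prod.ext_iff.mp hh).2⟩
  unfold Pool.V1E.kaF Pool.V1E.kwF at hh
  simp only [Prod.mk.injEq] at hh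
  have h1 := I.vZ ω ω' (hqA ω hω) (hqA ω' hω') hh.1.1
  exact Prod.ext hh.1.1 (Prod.ext hh.2.1 h1)


/-- **The fields `fr` and `full`** from the law level. -/
theorem tl_law (D d : ℕ) : ∃ C : ℕ, 1 ≤ C ∧ ∀ {m J : ℕ} {F : Pool.KA.Fam m J} {q : F.Ω → ℝ}
    {A : F.Ω → Prop} {c : ℕ → Fin m} {s : ℕ → ℕ} {e M wb W Wa Q k : ℕ} {gx : ℕ → ℕ}
    {qe : Fin d → ℕ} {V V' V₂ : Type} {v : F.Ω → V} {vL : Pool.GEN.LnT F → V} {v' : F.Ω → V'}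
    {z2 : F.Ω → V₂} {G₀ : Pool.GEN.PtT F → ℕ → MvPolynomial (Option (Fin m)) ℝ}
    {G₁ G₂ : Pool.GEN.PtT F → MvPolynomial (Option (Fin m)) ℝ}
    {H₀ : Pool.GEN.LnT F → ℕ → MvPolynomial (Option (Fin m)) ℝ}
    {H₁ H₂ : Pool.GEN.LnT F → MvPolynomial (Option (Fin m)) ℝ} {P₁ P₂ : Fin d → ℝ} {x δ : ℝ}
    {f : ℕ → ℝ} {κ₁ κ₂ κ₃ κ₄ : ℝ}, Pool.STK.IsLaw q → (∀ ω, 0 < q ω → A ω) →
    Set.InjOn c (Set.Iio d) → wb ≤ W → W ≤ J → 1 ≤ x →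
    Pool.W.LA91.TlI F A c d D e M gx wb W Wa v vL v' G₀ G₁ G₂ H₀ H₁ H₂ → (∀ l < d, gx l ≤ M) →
    e + M + C ≤ J → (∀ i < d, C + e + M + (s i + Q + k) ≤ J + gx i) →
    (∀ i < d, s i + Q + k ≤ J) →
    (∀ ω, 0 < q ω → ∀ i : Fin d,
      |(Pool.V1E.hL c s d W (Pool.V1E.trn d (G₀ (Pool.PB.ptr F J ω))) (Pool.KSAT.slam F W ω) (some i)).eval (Pool.PB.Trl.rt F W ω) -
        (Pool.V1E.hL c s d W (Pool.V1E.trn d (G₀ (Pool.PB.ptr F J ω))) (Pool.KSAT.slam F W ω) (some i)).eval 0 - Pool.PB.Trl.rt F W ω *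
        (Polynomial.derivative (Pool.V1E.hL c s d W (Pool.V1E.trn d (G₀ (Pool.PB.ptr F J ω))) (Pool.KSAT.slam F W ω)
          (some i))).eval (Pool.PB.Trl.rt F W ω)| ≤ δ) →
    (∀ ω, 0 < q ω → ∀ i : Fin d,
      |(Polynomial.derivative (Pool.V1E.hL c s d W (Pool.V1E.trn d (G₀ (Pool.PB.ptr F J ω))) (Pool.KSAT.slam F W ω)
          (some i))).eval (Pool.PB.Trl.rt F W ω) -
        (Polynomial.derivative (Pool.V1E.hL c s d W (Pool.V1E.trn d (G₀ (Pool.PB.ptr F J ω))) (Pool.KSAT.slam F W ω)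
          (some i))).eval 0| ≤ δ) → 2 ^ (Q + k) * δ ≤ 1 → (∀ i, 2 ^ qe i * δ ≤ 1) →
    (∀ i : Fin d, (2 : ℝ) ^ (Q + k) ≤ x * 2 ^ (P₂ i - s i + W)) →
    (∀ i : Fin d, (2 : ℝ) ^ qe i ≤ x * 2 ^ (P₂ i - s i + W)) →
    (∀ i : Fin d, (2 : ℝ) ^ qe i ≤ x * 2 ^ (P₁ i - s i + W)) →
    (∀ i : Fin d, (2 : ℝ) ^ (P₁ i - s i + W) ≤ x * 2 ^ qe i) →
    (∀ i < d, f i ≤ Pool.Agent.H49.Ent.CH q (fun ω => F.X J ω (c i))
      (fun ω => ((fun l : Fin i => F.X J ω (c l)), (Pool.LA91.zcF F d v v' G₀ G₁ G₂ ω, F.W ω)))) →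
    Pool.Agent.H49.Ent.CH q z2 (fun ω => (v ω, F.W ω)) ≤ Pool.Agent.H49.Ent.CH q z2 (fun ω =>
      ((fun i : Fin d => ⌊(2 : ℝ) ^ P₁ i * Pool.LA91.ojet F (c i) 1 (G₀ (Pool.PB.ptr F J ω) i) ω⌋),
        (v ω, F.W ω))) + κ₁ →
    Pool.Agent.H49.Ent.CH q z2 (fun ω => (v ω, F.W ω)) ≤ Pool.Agent.H49.Ent.CH q z2 (fun ω =>
      ((fun i : Fin d => ⌊(2 : ℝ) ^ P₂ i * Pool.LA91.ojet F (c i) 1 (G₀ (Pool.PB.ptr F J ω) i) ω⌋),
        (v ω, F.W ω))) + κ₁ →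
    Pool.Agent.H49.Ent.CH q (fun ω (i : Fin d) => ⌊(2 : ℝ) ^ (s i + Q + k) *
      Pool.LA91.ojet F (c i) 0 (G₀ (Pool.PB.ptr F J ω) i) ω⌋) (fun ω => (z2 ω, F.W ω)) ≤ κ₂ →
    Pool.Agent.H49.Ent.CH q (Pool.LA91.zcF F d v v' G₀ G₁ G₂) z2 ≤ κ₃ →
    Pool.Agent.H49.Ent.CH q (fun ω (i : Fin d) => ⌊(2 : ℝ) ^ (s i + Q) *
      Pool.LA91.ojet F (c i) 0 (G₀ (Pool.PB.ptr F J ω) i) ω⌋) (fun ω => (v' ω, F.W ω)) ≤ κ₄ →
    Pool.Agent.H49.Ent.CH q (fun ω => Pool.V1E.eL c s d W qe (Pool.V1E.frH F d (W - wb) H₀ (Pool.KSAT.slam F W ω)) (Pool.KSAT.slam F W ω))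
        (fun ω => (v ω, F.W ω)) ≤
      Pool.Agent.H49.Ent.CH q (fun ω => Pool.V1E.eL c s d W qe (Pool.V1E.frH F d (W - wb) H₀ (Pool.KSAT.slam F W ω)) (Pool.KSAT.slam F W ω))
        (Pool.V1E.kzF F c s d W Q v v' G₀ G₁ G₂) + (κ₁ + κ₂ + κ₃ + 2 * (d * Real.log (6 * x + 9))) ∧
    ∑ i ∈ range d, (f i - ((J : ℝ) - (s i + Q + k : ℕ)) * Real.log 2) -
        (κ₁ + κ₂ + κ₃ + κ₄ + 4 * (d * Real.log (6 * x + 9))) ≤
      Pool.Agent.H49.Ent.CH q (Pool.V1E.xd k (Pool.KSAT.slam F W) (fun L => Pool.V1E.xL c s d W Q (Pool.V1E.frH F d (W - wb) H₀ L) L))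
        (fun ω => (Pool.V1E.kzF F c s d W Q v v' G₀ G₁ G₂ ω,
          Pool.V1E.eL c s d W qe (Pool.V1E.frH F d (W - wb) H₀ (Pool.KSAT.slam F W ω)) (Pool.KSAT.slam F W ω))) := by
  obtain ⟨C, hC, hpf⟩ := Pool.W.LA91.pos_full D d
  refine ⟨C, hC, ?_⟩
  intro m J F q A c s e M wb W Wa Q k gx qe V V' V₂ v vL v' z2 G₀ G₁ G₂ H₀ H₁ H₂ P₁ P₂ x δ f κ₁
    κ₂ κ₃ κ₄ hq hqA hc hwb hW hx I hM hJ hN hNJ n1 n2 d1 d2 a1 a2 a3 a4 hf hf1 hf2 hx2 hz2 hcr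
  have hn := hq.nonneg
  obtain ⟨hT, hhT⟩ : ∃ hT : F.Ω → Fin d → ℝ, hT = fun ω i =>
    (Pool.V1E.hL c s d W (Pool.V1E.trn d (G₀ (Pool.PB.ptr F J ω))) (Pool.KSAT.slam F W ω) (some i)).eval (Pool.PB.Trl.rt F W ω) := ⟨_, rfl⟩
  obtain ⟨h0, hh0⟩ : ∃ hT : F.Ω → Fin d → ℝ, hT = fun ω i =>
    (Pool.V1E.hL c s d W (Pool.V1E.trn d (G₀ (Pool.PB.ptr F J ω))) (Pool.KSAT.slam F W ω) (some i)).eval 0 := ⟨_, rfl⟩
  obtain ⟨hv, hhv⟩ : ∃ hT : F.Ω → Fin d → ℝ, hT = fun ω i => (Polynomial.derivative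
    (Pool.V1E.hL c s d W (Pool.V1E.trn d (G₀ (Pool.PB.ptr F J ω))) (Pool.KSAT.slam F W ω) (some i))).eval (Pool.PB.Trl.rt F W ω) := ⟨_, rfl⟩
  obtain ⟨hv0, hhv0⟩ : ∃ hT : F.Ω → Fin d → ℝ, hT = fun ω i => (Polynomial.derivative
    (Pool.V1E.hL c s d W (Pool.V1E.trn d (G₀ (Pool.PB.ptr F J ω))) (Pool.KSAT.slam F W ω) (some i))).eval 0 := ⟨_, rfl⟩
  obtain ⟨E, hE⟩ : ∃ E : F.Ω → Fin d → ℤ, E = fun ω =>
    Pool.V1E.eL c s d W qe (Pool.V1E.frH F d (W - wb) H₀ (Pool.KSAT.slam F W ω)) (Pool.KSAT.slam F W ω) := ⟨_, rfl⟩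
  obtain ⟨Z, hZ⟩ : ∃ Z : F.Ω → Pool.V1E.KzT m d V V', Z = Pool.V1E.kzF F c s d W Q v v' G₀ G₁ G₂ := ⟨_, rfl⟩
  obtain ⟨xT, hxT⟩ : ∃ xT : F.Ω → Fin d → ℤ, xT = fun ω i => ⌊(2 : ℝ) ^ (Q + k) * hT ω i⌋ :=
    ⟨_, rfl⟩
  obtain ⟨U₁, hU₁⟩ : ∃ U : F.Ω → Fin d → ℤ, U = fun ω (i : Fin d) =>
    ⌊(2 : ℝ) ^ P₁ i * Pool.LA91.ojet F (c i) 1 (G₀ (Pool.PB.ptr F J ω) i) ω⌋ := ⟨_, rfl⟩
  obtain ⟨U₂, hU₂⟩ : ∃ U : F.Ω → Fin d → ℤ, U = fun ω (i : Fin d) =>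
    ⌊(2 : ℝ) ^ P₂ i * Pool.LA91.ojet F (c i) 1 (G₀ (Pool.PB.ptr F J ω) i) ω⌋ := ⟨_, rfl⟩
  have hpw : ∀ (P : ℝ) (i : Fin d) (ω : F.Ω), (2 : ℝ) ^ (P - s i + W) * hv ω i =
      2 ^ P * Pool.LA91.ojet F (c i) 1 (G₀ (Pool.PB.ptr F J ω) i) ω := by
    intro P i ω
    rw [hhv]
    simp only
    rw [Pool.LA91.hv_eq hW, Real.rpow_add (by norm_num), Real.rpow_sub (by norm_num), Real.rpow_natCast,
      Real.rpow_natCast]
    field_simp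
  have hxe : xT = fun ω (i : Fin d) => ⌊(2 : ℝ) ^ (s i + Q + k) *
      Pool.LA91.ojet F (c i) 0 (G₀ (Pool.PB.ptr F J ω) i) ω⌋ := by
    rw [hxT, hhT]
    funext ω i
    simp only
    rw [Pool.LA91.hT_eq hW, ← mul_assoc, ← pow_add, show Q + k + s i = s i + Q + k by ring]
  have hfr : ∀ ω, 0 < q ω → Pool.V1E.frH F d (W - wb) H₀ (Pool.KSAT.slam F W ω) = Pool.V1E.trn d (G₀ (Pool.PB.ptr F J ω)) := by
    intro ω hω
    unfold Pool.V1E.frH Pool.V1E.trn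
    funext l
    rw [Pool.D2R.co_slam F hwb hW ω]
    by_cases hl : l < d
    · rw [if_pos hl, if_pos hl, I.cl0 ω (hqA ω hω) l hl]
    · rw [if_neg hl, if_neg hl]
  have hEe : ∀ ω, 0 < q ω → ∀ i, E ω i = ⌊2 ^ qe i * hv0 ω i⌋ := by
    intro ω hω i
    rw [hE, hhv0]
    simp only
    rw [hfr ω hω]
    rfl
  obtain ⟨kd1, kd2⟩ := Pool.W.LA91.kz_det (s := s) (Q := Q) hqA I
  rw [← hZ] at kd2
  have kd3 := Pool.LA91.kz_of (F := F) (J := J) q c s d W Q k v v' G₀ G₁ G₂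
  have hcc : ∀ ω, Pool.V1E.crF F c s d W Q G₀ ω = fun i : Fin d => ⌊(2 : ℝ) ^ (s i + Q) *
      Pool.LA91.ojet F (c i) 0 (G₀ (Pool.PB.ptr F J ω) i) ω⌋ := by
    intro ω
    funext i
    unfold Pool.V1E.crF Pool.V1E.cL
    rw [Pool.LA91.hT_eq hW, ← mul_assoc, ← pow_add, Nat.add_comm Q]
  obtain ⟨L, hLL⟩ : ∃ L : ℝ, L = d * Real.log (6 * x + 9) := ⟨_, rfl⟩
  have hlog : ∀ t : ℝ, 0 < t → t ≤ 6 * x + 9 → (d : ℝ) * Real.log t ≤ L := by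
    intro t ht htx
    rw [hLL]
    exact mul_le_mul_of_nonneg_left (Real.log_le_log ht htx) (Nat.cast_nonneg d)
  -- the records given the last record
  have hXZ : Pool.Agent.H49.Ent.CH q (fun ω => (xT ω, Z ω)) (fun ω => (z2 ω, (v ω, F.W ω))) ≤ κ₂ + κ₃ := by
    have e1 := Pool.Agent.H32.Dense.CH_chain hn Z xT (fun ω => (z2 ω, (v ω, F.W ω)))
    have e2 : Pool.Agent.H49.Ent.CH q (fun ω => (xT ω, Z ω)) (fun ω => (z2 ω, (v ω, F.W ω))) =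
        Pool.Agent.H49.Ent.CH q (fun ω => (Z ω, xT ω)) (fun ω => (z2 ω, (v ω, F.W ω))) := by
      refine Pool.Agent.H32.Dense.CH_congr hn ?_ ?_ (fun _ _ _ _ h => h) (fun _ _ _ _ h => h) <;>
      · intro ω ω' _ _ hh
        simp only [Prod.mk.injEq] at hh ⊢
        tauto
    have e3 : Pool.Agent.H49.Ent.CH q xT (fun ω => (z2 ω, (v ω, F.W ω))) ≤ Pool.Agent.H49.Ent.CH q xT (fun ω => (z2 ω, F.W ω)) := by
      refine Pool.Agent.H32.Dense.CH_mono_cond hn fun ω ω' _ _ hh => ?_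
      simp only [Prod.mk.injEq] at hh ⊢
      exact ⟨hh.1, hh.2.2⟩
    have e4 : Pool.Agent.H49.Ent.CH q Z (fun ω => (xT ω, (z2 ω, (v ω, F.W ω)))) ≤
        Pool.Agent.H49.Ent.CH q (Pool.LA91.zcF F d v v' G₀ G₁ G₂) (fun ω => (xT ω, (z2 ω, (v ω, F.W ω)))) := by
      refine Pool.Agent.H32.Dense.CH_mono_left hn fun ω ω' hω hω' hh => ?_
      simp only [Prod.mk.injEq] at hh
      rw [hZ]
      refine kd3 ω ω' hω hω' ?_
      have h3 := hh.2.1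
      rw [hxT, hhT] at h3
      exact Prod.ext h3 (Prod.ext hh.1 hh.2.2.2.2)
    have e5 : Pool.Agent.H49.Ent.CH q (Pool.LA91.zcF F d v v' G₀ G₁ G₂) (fun ω => (xT ω, (z2 ω, (v ω, F.W ω)))) ≤
        Pool.Agent.H49.Ent.CH q (Pool.LA91.zcF F d v v' G₀ G₁ G₂) z2 := by
      refine Pool.Agent.H32.Dense.CH_mono_cond hn fun ω ω' _ _ hh => ?_
      simp only [Prod.mk.injEq] at hh
      exact hh.2.1
    rw [← hxe] at hx2
    linarith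
  have hZ2 : Pool.Agent.H49.Ent.CH q Z (fun ω => (z2 ω, (v ω, F.W ω))) ≤ κ₂ + κ₃ :=
    (Pool.Agent.H32.Dense.CH_mono_left hn fun ω ω' _ _ hh => (Prod.ext_iff.mp (Prod.ext_iff.mp hh).1).2).trans hXZ
  rw [← hE, ← hZ, ← hLL]
  constructor
  · -- the code of the velocity
    have d3 : ∀ i : Fin d, (2 : ℝ) ^ (P₁ i - s i + W) * δ ≤ x := by
      intro i
      have h2 := a4 i
      rcases le_or_gt 0 δ with hδ | hδ
      · calc (2 : ℝ) ^ (P₁ i - s i + W) * δ ≤ x * 2 ^ qe i * δ :=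
              mul_le_mul_of_nonneg_right h2 hδ
            _ = x * (2 ^ qe i * δ) := by ring
            _ ≤ x * 1 := mul_le_mul_of_nonneg_left (d2 i) (by linarith)
            _ = x := mul_one x
      · have h3 : (0 : ℝ) < 2 ^ (P₁ i - s i + W) := Real.rpow_pos_of_pos (by norm_num) _
        have h4 : (2 : ℝ) ^ (P₁ i - s i + W) * δ ≤ 0 := mul_nonpos_of_nonneg_of_nonpos h3.le hδ.le
        linarith
    obtain ⟨v1, v2⟩ := Pool.LA91.vel_code hq (qe := qe) (p := fun i => P₁ i - s i + W) (x := x) (δ := δ)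
      hv hv0 E hEe (by rw [hhv, hhv0]; exact n2) d2 d3 a3 a4
    have hUe : (fun ω (i : Fin d) => ⌊(2 : ℝ) ^ (P₁ i - s i + W) * hv ω i⌋) = U₁ := by
      rw [hU₁]
      funext ω i
      rw [hpw]
    rw [hUe] at v1 v2
    have g1 := Pool.LA91.free_use hn U₁ z2 (fun ω => (v ω, F.W ω)) Z (by rw [hU₁]; exact hf1) hZ2
    have g3 := Pool.Agent.H32.Dense.CH_le_add hn E U₁ (fun ω => (v ω, F.W ω))
    have g4 : Pool.Agent.H49.Ent.CH q E (fun ω => (U₁ ω, (v ω, F.W ω))) ≤ Pool.Agent.H49.Ent.CH q E U₁ :=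
      Pool.Agent.H32.Dense.CH_mono_cond hn fun ω ω' _ _ hh => (Prod.ext_iff.mp hh).1
    have g5 := Pool.Agent.H32.Dense.CH_le_add hn U₁ E Z
    have g6 : Pool.Agent.H49.Ent.CH q U₁ (fun ω => (E ω, Z ω)) ≤ Pool.Agent.H49.Ent.CH q U₁ E :=
      Pool.Agent.H32.Dense.CH_mono_cond hn fun ω ω' _ _ hh => (Prod.ext_iff.mp hh).1
    have g7 := v1.trans (hlog _ (by linarith) (by linarith))
    have g8 := v2.trans (hlog _ (by linarith) (by linarith))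
    linarith
  · have hUe : (fun ω (i : Fin d) => ⌊(2 : ℝ) ^ (P₂ i - s i + W) * hv ω i⌋) = U₂ := by
      rw [hU₂]
      funext ω i
      rw [hpw]
    have g1 := Pool.LA91.full_law hq (Q := Q) (k := k) (qe := qe) (p := fun i => P₂ i - s i + W) (x := x)
      (δ := δ) h0 hT hv hv0 (Pool.PB.Trl.rt F W) Z E (fun ω _ => Pool.PB.Trl.rt_mem F W ω) (fun ω ω' hω hω' hh => by
        have h1 : F.T ω = F.T ω' := by
          rw [hZ] at hh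
          unfold Pool.V1E.kzF Pool.V1E.kaF at hh
          simp only [Prod.mk.injEq] at hh
          exact hh.2.2.1
        unfold Pool.PB.Trl.rt
        rw [h1]) (fun ω ω' hω hω' hh => by
        have h1 : Pool.V1E.crF F c s d W Q G₀ ω = Pool.V1E.crF F c s d W Q G₀ ω' := by
          rw [hZ] at hh
          unfold Pool.V1E.kzF Pool.V1E.kaF at hh
          simp only [Prod.mk.injEq] at hh
          exact hh.2.2.2
        rw [hhT]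
        exact h1) hEe (by rw [hhT, hh0, hhv]; exact n1) (by rw [hhv, hhv0]; exact n2) d1 d2 a1 a2
    have e9 : (fun ω => ((fun i : Fin d => ⌊(2 : ℝ) ^ (Q + k) * hT ω i⌋), Z ω)) =
        fun ω => (xT ω, Z ω) := by
      rw [hxT]
    rw [hUe, e9, ← hxT] at g1
    have g2 : Pool.Agent.H49.Ent.CH q (fun ω i => ⌊2 ^ k * Int.fract (2 ^ Q * h0 ω i)⌋₊) (fun ω => (Z ω, E ω)) ≤
        Pool.Agent.H49.Ent.CH q (Pool.V1E.xd k (Pool.KSAT.slam F W) (fun L => Pool.V1E.xL c s d W Q (Pool.V1E.frH F d (W - wb) H₀ L) L))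
          (fun ω => (Z ω, E ω)) := by
      refine Pool.Agent.H32.Dense.CH_mono_left hn fun ω ω' hω hω' hh => ?_
      have h1 := (Prod.ext_iff.mp hh).1
      unfold Pool.V1E.xd Pool.V1E.xL at h1
      simp only at h1
      rw [hfr ω hω, hfr ω' hω'] at h1
      rw [hh0]
      exact h1
    have g3 := Pool.LA91.free_use hn U₂ z2 (fun ω => (v ω, F.W ω)) (fun ω => (xT ω, Z ω))
      (by rw [hU₂]; exact hf2) hXZ
    have g4 : Pool.Agent.H49.Ent.CH q U₂ Z ≤ Pool.Agent.H49.Ent.CH q U₂ (fun ω => (v ω, F.W ω)) :=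
      Pool.Agent.H32.Dense.CH_mono_cond hn fun ω ω' hω hω' hh => kd1 ω ω' hω hω' (kd2 ω ω' hω hω' hh)
    have g5 := hpf hq hqA hc I.ch (N := fun i => s i + Q + k) hM hJ hN hNJ
      (z := Pool.LA91.zcF F d v v' G₀ G₁ G₂) (fun ω ω' _ _ hh l hl => by
        unfold Pool.LA91.zcF Pool.V1E.kwF at hh
        simp only [Prod.mk.injEq] at hh
        have h1 := congrFun hh.2.2.1 l
        unfold Pool.V1E.trn at h1
        rw [if_pos hl, if_pos hl] at h1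
        exact h1) hf
    rw [← hxe] at g5
    have g6 := Pool.Agent.H32.Dense.CH_le_add hn xT (Pool.V1E.crF F c s d W Q G₀)
      (fun ω => (Pool.LA91.zcF F d v v' G₀ G₁ G₂ ω, F.W ω))
    have g7 : Pool.Agent.H49.Ent.CH q (Pool.V1E.crF F c s d W Q G₀) (fun ω => (Pool.LA91.zcF F d v v' G₀ G₁ G₂ ω, F.W ω)) ≤ κ₄ := by
      have h1 : Pool.V1E.crF F c s d W Q G₀ = fun ω (i : Fin d) => ⌊(2 : ℝ) ^ (s i + Q) *
          Pool.LA91.ojet F (c i) 0 (G₀ (Pool.PB.ptr F J ω) i) ω⌋ := funext hcc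
      rw [← h1] at hcr
      refine le_trans (Pool.Agent.H32.Dense.CH_mono_cond hn fun ω ω' _ _ hh => ?_) hcr
      unfold Pool.LA91.zcF at hh
      simp only [Prod.mk.injEq] at hh ⊢
      exact ⟨hh.1.1.1, hh.2⟩
    have g8 : Pool.Agent.H49.Ent.CH q xT (fun ω => (Pool.V1E.crF F c s d W Q G₀ ω, (Pool.LA91.zcF F d v v' G₀ G₁ G₂ ω, F.W ω))) ≤
        Pool.Agent.H49.Ent.CH q xT Z := by
      refine Pool.Agent.H32.Dense.CH_mono_cond hn fun ω ω' _ _ hh => ?_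
      unfold Pool.LA91.zcF at hh
      simp only [Prod.mk.injEq] at hh
      obtain ⟨h1, ⟨⟨h2, h3⟩, h4⟩, h5⟩ := hh
      have h7 : F.T ω = F.T ω' := (Prod.ext_iff.mp h5).1
      rw [hZ]
      unfold Pool.V1E.kzF Pool.V1E.kaF
      rw [h1, h2, h3, h4, h7]
    have g9 := hlog (2 * x + 9) (by linarith) (by linarith)
    have g10 := hlog 9 (by norm_num) (by linarith)
    have e10 : (fun ω => (Z ω, Pool.V1E.eL c s d W qe (Pool.V1E.frH F d (W - wb) H₀ (Pool.KSAT.slam F W ω))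
        (Pool.KSAT.slam F W ω))) = fun ω => (Z ω, E ω) := by
      rw [hE]
    rw [e10]
    linarith

end law

end Pool.W.LA91
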