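import Pool.Agent.H91.D2.Tlc7
import Pool.Agent.H57.W1.H91.D2.Tlc4
import Pool.Agent.H31.W1.H91.D2.Tlc4

/-!
# The entropy fields of `TL` in a class, at the critical points

`tlo_law`: the entropy fields of one law. `tl_cls`: at almost every critical point, for infinitely
many scales, the entropy fields of `TL` hold for all closed frames, charts and records.
-/

set_option autoImplicit false

namespace Pool.W.LA91

open Pool.LA91

open Finset Real MvPolynomial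
open Pool.Agent.H49.Ent Pool.Agent.H32.Dense Pool.STK Pool.KA Pool.KSAT Pool.K2S Pool.PB Pool.GEN
open Pool.S6C Pool.RCD Pool.D2R Pool.CHT Pool.D2G30 Pool.V1E
open Pool.PB.Trl (rt rt_mem t_rt)
open Pool.GRD (LbP)

variable {m : ℕ}

/-- **The entropy fields of one law.** -/
theorem tlo_law (D d : ℕ) : ∃ C₁ : ℕ, ∀ {m J : ℕ} {F : Pool.KA.Fam m J} {A : F.Ω → Prop}
    {c : ℕ → Fin m} {s gx : ℕ → ℕ} {e M Q n : ℕ} {qe : Fin d → ℕ} {V V' V₂ : Type}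
    {v : F.Ω → V} {vL : Pool.GEN.LnT F → V} {v' : F.Ω → V'} {z2 : F.Ω → V₂}
    {G₀ : Pool.GEN.PtT F → ℕ → MvPolynomial (Option (Fin m)) ℝ}
    {G₁ G₂ : Pool.GEN.PtT F → MvPolynomial (Option (Fin m)) ℝ}
    {H₀ : Pool.GEN.LnT F → ℕ → MvPolynomial (Option (Fin m)) ℝ}
    {H₁ H₂ : Pool.GEN.LnT F → MvPolynomial (Option (Fin m)) ℝ} {P₁ P₂ : Fin d → ℝ}
    {b w a o sh κ ε e₀ δ φ : ℝ} {sn : ℕ → ℝ → ℝ} {No Na : Fin d → ℝ},
    0 < Pool.K2S.Pe F.p A → Set.InjOn c (Set.Iio d) → b ≤ w → 0 ≤ w + sh → w + sh ≤ 1 → 0 < κ →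
    0 < ε → φ ≤ ε →
    (∀ i < d, |(sn i a - a) - (sn i w - w)| ≤ φ) →
    (∀ i < d, |(sn i o - o) - (sn i w - w)| ≤ φ) →
    (∀ i : Fin d, sn i o ≤ No i + ε) → (∀ i : Fin d, sn i a ≤ Na i + ε) →
    Pool.LA91.TlN J d C₁ (ε * J) e₀ sh sn P₁ P₂ b w a o s gx e M Q n qe →
    Pool.W.LA91.TlI F A c d D e M gx ⌊(b + sh) * J⌋₊ ⌊(w + sh) * J⌋₊ ⌊(a + sh) * J⌋₊ v vL v' G₀ G₁ G₂
      H₀ H₁ H₂ →
    Pool.LA91.TlS F A c s d ⌊(w + sh) * J⌋₊ Q n qe G₀ δ →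
    -- the facts of the class
    (∀ i < d, (((1 - sn i a) - φ) * Real.log 2 * J) ≤ Pool.Agent.H49.Ent.CH (Pool.Agent.H49.Ent.cond F.p A True)
      (fun ω => F.X J ω (c i)) (fun ω => ((fun l : Fin i => F.X J ω (c l)),
        (Pool.LA91.zcF F d v v' G₀ G₁ G₂ ω, F.W ω)))) →
    (J : ℝ) * Real.log 2 - κ * J ≤
      Pool.Agent.H49.Ent.CH (Pool.Agent.H49.Ent.cond F.p A True) F.T (fun ω => (F.l ω, F.Z ω)) →
    Pool.Agent.H49.Ent.CH (Pool.Agent.H49.Ent.cond F.p A True) z2 (fun ω => (v ω, F.W ω)) ≤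
      Pool.Agent.H49.Ent.CH (Pool.Agent.H49.Ent.cond F.p A True) z2 (fun ω =>
      ((fun i : Fin d => ⌊(2 : ℝ) ^ (P₁ i * J) * Pool.LA91.ojet F (c i) 1 (G₀ (Pool.PB.ptr F J ω) i) ω⌋),
        (v ω, F.W ω))) + κ * J →
    Pool.Agent.H49.Ent.CH (Pool.Agent.H49.Ent.cond F.p A True) z2 (fun ω => (v ω, F.W ω)) ≤
      Pool.Agent.H49.Ent.CH (Pool.Agent.H49.Ent.cond F.p A True) z2 (fun ω =>
      ((fun i : Fin d => ⌊(2 : ℝ) ^ (P₂ i * J) * Pool.LA91.ojet F (c i) 1 (G₀ (Pool.PB.ptr F J ω) i) ω⌋),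
        (v ω, F.W ω))) + κ * J →
    Pool.Agent.H49.Ent.CH (Pool.Agent.H49.Ent.cond F.p A True) (fun ω (i : Fin d) => ⌊(2 : ℝ) ^ (No i * J) *
      Pool.LA91.ojet F (c i) 0 (G₀ (Pool.PB.ptr F J ω) i) ω⌋) (fun ω => (z2 ω, F.W ω)) ≤ κ * J →
    Pool.Agent.H49.Ent.CH (Pool.Agent.H49.Ent.cond F.p A True) (Pool.LA91.zcF F d v v' G₀ G₁ G₂) z2 ≤ κ * J →
    Pool.Agent.H49.Ent.CH (Pool.Agent.H49.Ent.cond F.p A True) (fun ω (i : Fin d) => ⌊(2 : ℝ) ^ (Na i * J) *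
      Pool.LA91.ojet F (c i) 0 (G₀ (Pool.PB.ptr F J ω) i) ω⌋) (fun ω => (v' ω, F.W ω)) ≤ κ * J →
    Pool.LA91.TlO F (Pool.Agent.H49.Ent.cond F.p A True) c s d ⌊(b + sh) * J⌋₊ ⌊(w + sh) * J⌋₊ Q n qe
      v vL v' G₀ G₁ G₂ H₀ H₁ (4 * κ * J + 6 * (d * (5 * ε * J + 4)) + d * (5 * ε * J)) := by
  obtain ⟨C₁, hC₁, hlaw⟩ := Pool.W.LA91.tl_law D d
  refine ⟨C₁, ?_⟩
  intro m J F A c s gx e M Q n qe V V' V₂ v vL v' z2 G₀ G₁ G₂ H₀ H₁ H₂ P₁ P₂ b w a o sh κ ε e₀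
    δ φ sn No Na hA hc hbw hw0 hw1 hκ hε hφ fa fo ho ha N I S hful htm hf1 hf2 hx2 hz2 hcr
  have hcl := Pool.K2S.isLaw_cond F.isLaw hA
  obtain ⟨q, hq⟩ : ∃ q : F.Ω → ℝ, q = Pool.Agent.H49.Ent.cond F.p A True := ⟨_, rfl⟩
  rw [← hq] at hcl hful htm hf1 hf2 hx2 hz2 hcr ⊢
  have hqA : ∀ ω, 0 < q ω → A ω := by
    intro ω hω
    rw [hq] at hω
    exact Pool.LA91.of_cond_pos hω
  have hJ0 : (0 : ℝ) ≤ J := Nat.cast_nonneg J
  have hl2 : 0 < Real.log 2 := Real.log_pos one_lt_two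
  have hl21 : Real.log 2 ≤ 1 := by
    have := Real.log_two_lt_d9
    linarith
  have hεJ : 0 ≤ ε * J := by positivity
  have hκJ : 0 ≤ κ * J := by positivity
  have hφJ : φ * J ≤ ε * J := mul_le_mul_of_nonneg_right hφ hJ0
  obtain ⟨x, hx⟩ : ∃ x : ℝ, x = 2 ^ (5 * ε * J) := ⟨_, rfl⟩
  have hx1 : 1 ≤ x := by
    rw [hx]
    exact Real.one_le_rpow (by norm_num) (by positivity)
  have hd0 : (0 : ℝ) ≤ d := Nat.cast_nonneg d
  -- the logarithms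
  obtain ⟨L, hLL⟩ : ∃ L : ℝ, L = d * (5 * ε * J + 4) := ⟨_, rfl⟩
  have hlog : ∀ t : ℝ, 0 < t → t ≤ 6 * x + 15 → (d : ℝ) * Real.log t ≤ L := by
    intro t ht htx
    rw [hLL]
    refine mul_le_mul_of_nonneg_left ?_ hd0
    have h1 : t ≤ Real.exp 4 * x := by
      have h2 := Real.exp_one_gt_d9
      have h3 : Real.exp 4 = (Real.exp 1) ^ 4 := by rw [← Real.exp_nat_mul]; norm_num
      have h4 : (21 : ℝ) ≤ Real.exp 4 := by
        rw [h3]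
        have h5 : (2.7 : ℝ) ^ 4 ≤ (Real.exp 1) ^ 4 := pow_le_pow_left₀ (by norm_num) (by linarith) 4
        norm_num at h5 ⊢
        linarith
      nlinarith
    have h2 := Real.log_le_log ht h1
    rw [Real.log_mul (Real.exp_pos 4).ne' (by linarith), Real.log_exp, hx,
      Real.log_rpow (by norm_num)] at h2
    have h3 : 5 * ε * J * Real.log 2 ≤ 5 * ε * J * 1 :=
      mul_le_mul_of_nonneg_left hl21 (by positivity)
    linarith
  have hWJ : ⌊(w + sh) * J⌋₊ ≤ J := Pool.RCD.floor_le hw1 J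
  have hbW : ⌊(b + sh) * J⌋₊ ≤ ⌊(w + sh) * J⌋₊ :=
    Nat.floor_le_floor (mul_le_mul_of_nonneg_right (by linarith) hJ0)
  have hNJ : ∀ i < d, s i + Q + n ≤ J := by
    intro i hi
    have h1 := N.hN i hi
    have h2 := N.hM i hi
    omega
  -- the digits
  have hsa : ∀ i : Fin d, (s i : ℝ) + Q - sn i a * J ≤ 3 * (ε * J) ∧
      -(3 * (ε * J)) ≤ (s i : ℝ) + Q - sn i a * J := by
    intro i
    have h1 := abs_le.1 (N.hs i i.2)
    have h2 := abs_le.1 N.hQ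
    have h3 := abs_le.1 (fa i i.2)
    have h4 := mul_le_mul_of_nonneg_right h3.1 hJ0
    have h5 := mul_le_mul_of_nonneg_right h3.2 hJ0
    constructor <;> linarith [h1.1, h1.2, h2.1, h2.2]
  have hso : ∀ i : Fin d, (s i : ℝ) + Q + n - sn i o * J ≤ 3 * (ε * J) := by
    intro i
    have h1 := abs_le.1 (N.hs i i.2)
    have h2 := N.hn
    have h3 := abs_le.1 (fo i i.2)
    have h4 := mul_le_mul_of_nonneg_right h3.1 hJ0
    linarith [h1.1, h1.2]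
  -- the records
  have k2 := Pool.LA91.dig_le hcl (fun ω (i : Fin d) => Pool.LA91.ojet F (c i) 0 (G₀ (Pool.PB.ptr F J ω) i) ω)
    (fun ω => (z2 ω, F.W ω)) (n := fun i => s i + Q + n) (N := fun i => No i * J) (x := x)
    (fun i => by
      rw [hx]
      refine Pool.LA91.pow_le_x ?_
      have h1 := hso i
      have h2 := mul_le_mul_of_nonneg_right (ho i) hJ0
      push_cast
      linarith)
  have k4 := Pool.LA91.dig_le hcl (fun ω (i : Fin d) => Pool.LA91.ojet F (c i) 0 (G₀ (Pool.PB.ptr F J ω) i) ω)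
    (fun ω => (v' ω, F.W ω)) (n := fun i => s i + Q) (N := fun i => Na i * J) (x := x)
    (fun i => by
      rw [hx]
      refine Pool.LA91.pow_le_x ?_
      have h1 := (hsa i).1
      have h2 := mul_le_mul_of_nonneg_right (ha i) hJ0
      push_cast
      linarith)
  have g1 := hlog (2 * (x + 1) + 1) (by linarith) (by linarith)
  have a3 : ∀ i : Fin d, (2 : ℝ) ^ qe i ≤
      x * 2 ^ (P₁ i * J - s i + (⌊(w + sh) * J⌋₊ : ℕ)) := by
    intro i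
    rw [hx]
    refine Pool.LA91.pow_le_x ?_
    have h1 := abs_le.1 (N.hqe i)
    linarith [h1.2]
  have key := hlaw (P₁ := fun i => P₁ i * J) (P₂ := fun i => P₂ i * J) (x := x) (δ := δ)
    (f := fun i => ((1 - sn i a) - φ) * Real.log 2 * J) (κ₁ := κ * J) (κ₂ := κ * J + L)
    (κ₃ := κ * J) (κ₄ := κ * J + L) (Q := Q) (k := n) (qe := qe) hcl hqA hc hbW hWJ hx1 I N.hM N.hJ
    N.hN hNJ (fun ω hω i => S.n1 ω (hqA ω hω) i) (fun ω hω i => S.n2 ω (hqA ω hω) i) S.d1 S.d2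
    (fun i => by
      rw [hx]
      refine Pool.LA91.pow_le_x ?_
      have h1 := N.hP i
      push_cast
      linarith) (fun i => by
      rw [hx]
      refine Pool.LA91.pow_le_x ?_
      have h1 := N.hPe i
      linarith) a3 (fun i => by
      rw [hx]
      refine Pool.LA91.le_x_pow ?_
      have h1 := abs_le.1 (N.hqe i)
      linarith [h1.1]) hful hf1 hf2 (by linarith) hz2 (by linarith)
  obtain ⟨q1, q2⟩ := key
  have g2 := hlog (6 * x + 9) (by linarith) (by linarith)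
  have hL0 : 0 ≤ L := by rw [hLL]; positivity
  have hdε : 0 ≤ d * (5 * ε * J) := by positivity
  refine ⟨?_, ?_, ?_, ?_, ?_⟩
  · have h1 := Pool.LA91.t_full hcl hWJ (e := κ * J) htm
    linarith
  · have h1 : ∀ ω, 0 < q ω → ∀ i : Fin d,
        |2 ^ Q * ((Pool.V1E.hL c s d ⌊(w + sh) * J⌋₊ (Pool.V1E.trn d (G₀ (Pool.PB.ptr F J ω)))
            (Pool.KSAT.slam F ⌊(w + sh) * J⌋₊ ω) (some i)).eval (Pool.PB.Trl.rt F ⌊(w + sh) * J⌋₊ ω)) -
          2 ^ Q * ((Pool.V1E.hL c s d ⌊(w + sh) * J⌋₊ (Pool.V1E.trn d (G₀ (Pool.PB.ptr F J ω)))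
            (Pool.KSAT.slam F ⌊(w + sh) * J⌋₊ ω) (some i)).eval 0) -
          2 ^ Q * (Pool.PB.Trl.rt F ⌊(w + sh) * J⌋₊ ω *
            ((Pool.V1E.eL c s d ⌊(w + sh) * J⌋₊ qe (Pool.V1E.trn d (G₀ (Pool.PB.ptr F J ω)))
              (Pool.KSAT.slam F ⌊(w + sh) * J⌋₊ ω) i : ℤ) / 2 ^ qe i))| ≤ 2 + x := by
      intro ω hω i
      have m1 := S.n1 ω (hqA ω hω) i
      have m2 := S.n2 ω (hqA ω hω) i
      have hu := Pool.PB.Trl.rt_mem F ⌊(w + sh) * J⌋₊ ω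
      have hδ : 0 ≤ δ := (abs_nonneg _).trans m1
      obtain ⟨y0, hy0⟩ : ∃ y : ℝ, y = (Pool.V1E.hL c s d ⌊(w + sh) * J⌋₊ (Pool.V1E.trn d (G₀ (Pool.PB.ptr F J ω)))
        (Pool.KSAT.slam F ⌊(w + sh) * J⌋₊ ω) (some i)).eval 0 := ⟨_, rfl⟩
      obtain ⟨y1, hy1⟩ : ∃ y : ℝ, y = (Pool.V1E.hL c s d ⌊(w + sh) * J⌋₊ (Pool.V1E.trn d (G₀ (Pool.PB.ptr F J ω)))
        (Pool.KSAT.slam F ⌊(w + sh) * J⌋₊ ω) (some i)).eval (Pool.PB.Trl.rt F ⌊(w + sh) * J⌋₊ ω) := ⟨_, rfl⟩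
      obtain ⟨z1, hz1⟩ : ∃ y : ℝ, y = (Polynomial.derivative (Pool.V1E.hL c s d ⌊(w + sh) * J⌋₊
        (Pool.V1E.trn d (G₀ (Pool.PB.ptr F J ω))) (Pool.KSAT.slam F ⌊(w + sh) * J⌋₊ ω) (some i))).eval
        (Pool.PB.Trl.rt F ⌊(w + sh) * J⌋₊ ω) := ⟨_, rfl⟩
      obtain ⟨z0, hz0⟩ : ∃ y : ℝ, y = (Polynomial.derivative (Pool.V1E.hL c s d ⌊(w + sh) * J⌋₊
        (Pool.V1E.trn d (G₀ (Pool.PB.ptr F J ω))) (Pool.KSAT.slam F ⌊(w + sh) * J⌋₊ ω) (some i))).eval 0 := ⟨_, rfl⟩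
      obtain ⟨u, hu'⟩ : ∃ u : ℝ, u = Pool.PB.Trl.rt F ⌊(w + sh) * J⌋₊ ω := ⟨_, rfl⟩
      have he : ((Pool.V1E.eL c s d ⌊(w + sh) * J⌋₊ qe (Pool.V1E.trn d (G₀ (Pool.PB.ptr F J ω)))
          (Pool.KSAT.slam F ⌊(w + sh) * J⌋₊ ω) i : ℤ) : ℝ) = ⌊2 ^ qe i * z0⌋ := by
        rw [hz0]
        rfl
      rw [he]
      rw [← hy1, ← hy0, ← hz1, ← hu'] at m1
      rw [← hz1, ← hz0] at m2
      rw [← hu'] at hu
      rw [← hy1, ← hy0, ← hu']
      obtain ⟨E, hE⟩ : ∃ E : ℝ, E = ⌊2 ^ qe i * z0⌋ / 2 ^ qe i := ⟨_, rfl⟩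
      have hpq : (0 : ℝ) < 2 ^ qe i := by positivity
      have f1 := Int.floor_le ((2 : ℝ) ^ qe i * z0)
      have f2 := Int.lt_floor_add_one ((2 : ℝ) ^ qe i * z0)
      have hE1 : |z0 - E| ≤ 1 / 2 ^ qe i := by
        rw [hE, le_div_iff₀ hpq, ← abs_of_pos hpq, ← abs_mul, abs_of_pos hpq]
        have h5 : (z0 - ⌊2 ^ qe i * z0⌋ / 2 ^ qe i) * 2 ^ qe i = 2 ^ qe i * z0 -
            ⌊2 ^ qe i * z0⌋ := by
          field_simp
        rw [h5, abs_le]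
        constructor <;> linarith
      rw [← hE]
      have hxq : (2 : ℝ) ^ Q * (1 / 2 ^ qe i) ≤ x := by
        rw [mul_one_div, div_le_iff₀ hpq, hx, ← Real.rpow_natCast 2 (qe i),
          ← Real.rpow_add (by norm_num), ← Real.rpow_natCast]
        refine Real.rpow_le_rpow_of_exponent_le (by norm_num) ?_
        have h5 := N.hQe i
        linarith
      have hQδ : (2 : ℝ) ^ Q * δ ≤ 1 := by
        refine le_trans (mul_le_mul_of_nonneg_right (pow_le_pow_right₀ (by norm_num) ?_) hδ) S.d1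
        omega
      have h6 : |y1 - y0 - u * E| ≤ δ + (δ + 1 / 2 ^ qe i) := by
        have h7 : y1 - y0 - u * E = (y1 - y0 - u * z1) + u * ((z1 - z0) + (z0 - E)) := by ring
        rw [h7]
        refine (abs_add_le _ _).trans (add_le_add m1 ?_)
        rw [abs_mul, abs_of_nonneg hu.1]
        have h8 : |(z1 - z0) + (z0 - E)| ≤ δ + 1 / 2 ^ qe i :=
          (abs_add_le _ _).trans (add_le_add m2 hE1)
        calc u * |(z1 - z0) + (z0 - E)| ≤ 1 * |(z1 - z0) + (z0 - E)| :=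
              mul_le_mul_of_nonneg_right hu.2 (abs_nonneg _)
          _ ≤ δ + 1 / 2 ^ qe i := by rw [one_mul]; exact h8
      have h9 : (2 : ℝ) ^ Q * y1 - 2 ^ Q * y0 - 2 ^ Q * (u * E) = 2 ^ Q * (y1 - y0 - u * E) := by
        ring
      have h10 : (0 : ℝ) < 2 ^ Q := by positivity
      rw [h9, abs_mul, abs_of_pos h10]
      calc (2 : ℝ) ^ Q * |y1 - y0 - u * E| ≤ 2 ^ Q * (δ + (δ + 1 / 2 ^ qe i)) :=
            mul_le_mul_of_nonneg_left h6 h10.le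
        _ = 2 ^ Q * δ + 2 ^ Q * δ + 2 ^ Q * (1 / 2 ^ qe i) := by ring
        _ ≤ 2 + x := by linarith
    have h2 := Pool.LA91.a_few hcl (vL := vL) (q₀ := ⌊(w + sh) * J⌋₊ - ⌊(b + sh) * J⌋₊)
      (fun ω hω => I.vv ω (hqA ω hω)) (fun ω hω l hl => by
        rw [Pool.D2R.co_slam F hbW hWJ ω]
        exact I.cl0 ω (hqA ω hω) l hl) (fun ω hω => I.cl1 ω (hqA ω hω)) h1
    have h3 := hlog (2 * (2 * (2 + x) + 3) + 1) (by linarith) (by linarith)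
    linarith
  · refine (Pool.Agent.H32.Dense.CH_mono_cond hcl.nonneg (Pool.W.LA91.kz_det (s := s) (Q := Q) hqA I).1).trans ?_
    linarith
  · linarith
  · have h1 : (d : ℝ) * (n * Real.log 2) - d * (5 * ε * J) ≤ ∑ i ∈ range d,
        (((1 - sn i a) - φ) * Real.log 2 * J - ((J : ℝ) - (s i + Q + n : ℕ)) * Real.log 2) := by
      have h2 : (d : ℝ) * (n * Real.log 2) - d * (5 * ε * J) =
          ∑ _i ∈ range d, (n * Real.log 2 - 5 * ε * J) := by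
        rw [Finset.sum_const, Finset.card_range, nsmul_eq_mul]
        ring
      rw [h2]
      refine Finset.sum_le_sum fun i hi => ?_
      have h3 := (hsa ⟨i, Finset.mem_range.1 hi⟩).2
      simp only at h3
      have h4 : ((1 - sn i a) - φ) * Real.log 2 * J -
          ((J : ℝ) - (s i + Q + n : ℕ)) * Real.log 2 = n * Real.log 2 +
          (((s i : ℝ) + Q - sn i a * J) - φ * J) * Real.log 2 := by
        push_cast
        ring
      rw [h4]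
      have h5 : -(4 * (ε * J)) ≤ ((s i : ℝ) + Q - sn i a * J) - φ * J := by linarith
      have h6 := mul_le_mul_of_nonneg_right h5 hl2.le
      have h7 : 4 * (ε * J) * Real.log 2 ≤ 4 * (ε * J) * 1 :=
        mul_le_mul_of_nonneg_left hl21 (by positivity)
      linarith
    linarith

end Pool.W.LA91
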