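import Pool.Agent.H91.D2.TlcA
import Pool.Agent.H57.W1.H91.D2.Tlc5
import Pool.Agent.H57.W1.H91.D2.Tlc7
import Pool.Agent.H31.W1.H80.GEN.Chn
import Pool.Agent.H31.W1.H91.D2.Tlc4
import Pool.Agent.H31.W1.H91.D2.TlcA

/-!
# The entropy fields of `TL` at ALL small scales

`TlAt`: the entropy fields of `TL` (`TlO`) hold at the scale `2 ^ (-k)` for all closed frames, charts
and records. `tl_all`: at almost every critical point of a closed set of good windows, `TlAt` holds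
for all small scales.
-/

set_option autoImplicit false

namespace Pool.W.LA91

open Pool.LA91

open Finset Real MvPolynomial
open Pool.Agent.H49.Ent Pool.Agent.H32.Dense Pool.STK Pool.KA Pool.KSAT Pool.K2S Pool.PB Pool.GEN
open Pool.S6C Pool.RCD Pool.D2R Pool.CHT Pool.D2G30 Pool.V1E
open Pool.PB.Trl (rt rt_mem t_rt)
open Pool.GRD (LbP)

variable {m : ℕ}


/-- **The entropy fields of `TL`** in a class, all small scales. -/
theorem tl_all {S : Pool.PB.PCl m} {C₀ : ℝ} (hS : S.Ne)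
    (hpos : ∀ (τ : ℝ) (J : ℕ) (F : Pool.KA.Fam m J) (A : F.Ω → Prop), S.St τ J F A → 0 < Pool.K2S.Pe F.p A)
    (htm : Pool.GEN.TmC S C₀) {c : ℕ → Fin m} {d : ℕ} {sh A B : ℝ} {sn : ℕ → ℝ → ℝ} {G : Set ℝ}
    (hG : IsClosed G) (hW : Pool.LA91.ChG S c d sn G) (hB : B ≤ 1) {η : ℚ → ℝ}
    (hη : ∀ w : ℚ, A ≤ (w : ℝ) + sh → (w : ℝ) + sh ≤ 1 →
      Pool.RCD.RNum S (fun J F => Pool.PB.ptr F J) (Pool.RCD.vg ((w : ℝ) + sh)) (η w)) :
    ∃ S' : Pool.PB.PCl m, S'.Ne ∧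
      (∀ (τ : ℝ) (J : ℕ) (F : Pool.KA.Fam m J) (A : F.Ω → Prop), S'.St τ J F A → S.St τ J F A) ∧
      ∀ᵐ g : ℝ, g ∈ Set.Ioo A B → g ∈ G →
      (∀ i < d, HasDerivWithinAt (fun x => sn i x - x) 0 G g) →
      ∀ (C : ℕ) (σ : ℚ), 0 < σ → σ ≤ 1 → ∀ κ : ℝ, 0 < κ → ∃ K : ℕ, ∀ k ≥ K,
        Pool.W.LA91.TlAt S' c d sn G g C σ κ k := by
  classical
  rcases G.eq_empty_or_nonempty with rfl | hne
  · exact ⟨S, hS, fun _ _ _ _ h => h, Filter.Eventually.of_forall fun g _ hg =>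
      absurd hg (Set.notMem_empty g)⟩
  obtain ⟨pG, hp⟩ := Pool.LA91.nrG_ex hG hne
  obtain ⟨fp, hfp⟩ : ∃ fp : ∀ (J : ℕ) (F : Pool.KA.Fam m J), F.Ω → Pool.GEN.PtT F, fp = fun J F => Pool.PB.ptr F J :=
    ⟨_, rfl⟩
  obtain ⟨yW, hyW⟩ : ∃ yW : ∀ (J : ℕ) (F : Pool.KA.Fam m J), F.Ω → ℕ × F.ζ, yW = fun _ F => F.W :=
    ⟨_, rfl⟩
  have hf : ∀ (J : ℕ) (F : Pool.KA.Fam m J), ∃ φ : Pool.GEN.PtT F → Pool.GEN.PtT F, ∀ ω, Pool.PB.ptr F J ω = φ (fp J F ω) := by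
    intro J F
    rw [hfp]
    exact ⟨fun x => x, fun _ => rfl⟩
  have hy : Pool.LA91.Kn ((range 0).image c) 1 1 yW := by
    intro J F
    rw [hyW]
    exact ⟨fun x => (x.1, fun _ => 0, fun _ => 0), fun ω => by simp [Pool.KA.Fam.W]⟩
  unfold Pool.W.LA91.TlAt
  rw [← hfp] at hη ⊢
  obtain ⟨S', h1, h2, hfree⟩ := Pool.LA91.free_all hS hpos htm hG hW hf hy hB hη
  have hpos' : ∀ (τ : ℝ) (J : ℕ) (F : Pool.KA.Fam m J) (A : F.Ω → Prop), S'.St τ J F A → 0 < Pool.K2S.Pe F.p A :=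
    fun τ J F A h => hpos τ J F A (h2 τ J F A h)
  have hη' : ∀ w : ℚ, A ≤ (w : ℝ) + sh → (w : ℝ) + sh ≤ 1 →
      Pool.RCD.RNum S' fp (Pool.RCD.vg ((w : ℝ) + sh)) (η w) :=
    fun w a b => (hη w a b).sub h2
  have htm' : Pool.GEN.TmC S' C₀ := fun τ J F A hτ h => htm τ J F A hτ (h2 τ J F A h)
  have hW' : Pool.LA91.ChG S' c d sn G := hW.sub h2
  refine ⟨S', h1, h2, ?_⟩
  filter_upwards [hfree, Pool.LA91.ae_infDist G] with g hg hdist hgAB hgG hd C σ hσ0 hσ1 κ hκ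
  have hd0 : (0 : ℝ) ≤ d := Nat.cast_nonneg d
  have hd1 : (0 : ℝ) < d + 1 := by positivity
  -- the constants
  have s0 : (0 : ℝ) < σ := by exact_mod_cast hσ0
  obtain ⟨ε, hε⟩ : ∃ ε : ℝ, ε = Pool.LA91.epT d σ κ := ⟨_, rfl⟩
  have hε' : ε = min (σ : ℝ) (κ / (140 * (d + 1))) := hε
  have hε0 : 0 < ε := by rw [hε']; positivity
  have hεσ : ε ≤ σ := by rw [hε']; exact min_le_left _ _
  have hεd : ε * (d + 1) ≤ κ / 140 := by
    have h3 : ε ≤ κ / (140 * (d + 1)) := by rw [hε']; exact min_le_right _ _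
    have h4 := mul_le_mul_of_nonneg_right h3 hd1.le
    have h5 : κ / (140 * ((d : ℝ) + 1)) * (d + 1) = κ / 140 := by field_simp
    linarith
  obtain ⟨φ, hφ⟩ : ∃ φ : ℝ, φ = ε / (20 * (d + 1)) := ⟨_, rfl⟩
  have hφ0 : 0 < φ := by rw [hφ]; positivity
  have hφs : φ = Pool.LA91.slT d σ κ := by rw [hφ, hε]; rfl
  have hφd : φ * (d + 1) = ε / 20 := by
    rw [hφ]
    field_simp
  have hφε : φ ≤ ε / 20 := by
    have : φ * 1 ≤ φ * (d + 1) := mul_le_mul_of_nonneg_left (by linarith) hφ0.le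
    linarith
  obtain ⟨φ₁, hφ₁⟩ : ∃ φ₁ : ℝ, φ₁ = min φ (1 / 4) := ⟨_, rfl⟩
  have hφ10 : 0 < φ₁ := by rw [hφ₁]; positivity
  have hφ1φ : φ₁ ≤ φ := by rw [hφ₁]; exact min_le_left _ _
  have hφ14 : φ₁ ≤ 1 / 4 := by rw [hφ₁]; exact min_le_right _ _
  obtain ⟨Cw, hCw⟩ : ∃ Cw : ℝ, Cw = 2 * C + 7 * d + 13 := ⟨_, rfl⟩
  have hCw0 : 0 < Cw := by rw [hCw]; positivity
  obtain ⟨K₃, hK₃⟩ := Pool.LA91.flat_kd (f := fun i x => sn i (pG x) - pG x)
    (fun i hi => Pool.LA91.deriv_p hp (n := fun x => sn i x - x) hgG (hd i hi)) hφ10 hCw0.le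
  obtain ⟨K₄, hK₄⟩ := Pool.LA91.flat_k (hdist hgG) hφ10 hCw0.le
  have hmn : 0 < min ((g - A) / Cw) ((1 - g) / Cw) :=
    lt_min (div_pos (by linarith [hgAB.1]) hCw0) (div_pos (by linarith [hgAB.2]) hCw0)
  obtain ⟨K₂, hK₂⟩ := exists_pow_lt_of_lt_one hmn (show (1 / 2 : ℝ) < 1 by norm_num)
  obtain ⟨K₁, hK₁⟩ := hg hgAB hgG hd C σ hσ0 hσ1 (κ / 16) (by positivity)
  refine ⟨max K₁ (max K₂ (max K₃ K₄)), fun k hk => ?_⟩
  have hgood := hK₁ k ((le_max_left _ _).trans hk)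
  unfold Pool.LA91.FreeAt at hgood
  have hkK2 : K₂ ≤ k := ((le_max_left _ _).trans (le_max_right _ _)).trans hk
  have hkK3 : K₃ ≤ k :=
    ((le_max_left _ _).trans ((le_max_right _ _).trans (le_max_right _ _))).trans hk
  have hkK4 : K₄ ≤ k :=
    ((le_max_right _ _).trans ((le_max_right _ _).trans (le_max_right _ _))).trans hk
  have hflat := hK₃ k hkK3
  have hgapk := hK₄ k hkK4
  intro P₁ P₂ b w a o hP₁ hP₂ hb b1 bw wa ao o1
  obtain ⟨r, hr⟩ : ∃ r : ℝ, r = (1 / 2) ^ k := ⟨_, rfl⟩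
  have hr0 : 0 < r := by rw [hr]; positivity
  have hlag : Pool.LA91.lagG C d k = C * r + 7 * (d * r) + 13 * r := by
    unfold Pool.LA91.lagG
    rw [← hr]
    ring
  have hlst : Pool.LA91.lstG C d k = 2 * (C * r) + 7 * (d * r) + 12 * r := by
    unfold Pool.LA91.lstG
    rw [← hr]
    ring
  -- the last record
  obtain ⟨oq, oq1, oq2⟩ : ∃ x : ℚ, o - sh < x ∧ (x : ℝ) < o - sh + r :=
    exists_rat_btwn (by linarith)
  rw [← hr] at o1 b1
  obtain ⟨m1, hm1, e1, he1, H1⟩ := hgood P₁ b w ((oq : ℝ) + sh) hP₁ hb (by rw [← hr]; exact b1) bw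
    (by linarith) (by linarith)
  obtain ⟨m2, hm2, e2, he2, H2⟩ := hgood P₂ b w ((oq : ℝ) + sh) hP₂ hb (by rw [← hr]; exact b1) bw
    (by linarith) (by linarith)
  have hrlt : r < min ((g - A) / Cw) ((1 - g) / Cw) := by
    rw [hr]
    exact lt_of_le_of_lt (pow_le_pow_of_le_one (by norm_num) (by norm_num) hkK2) hK₂
  have hCA : Cw * r < g - A := by
    have h3 := hrlt.trans_le (min_le_left _ _)
    rw [lt_div_iff₀ hCw0] at h3
    linarith
  have hCB : Cw * r < 1 - g := by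
    have h3 := hrlt.trans_le (min_le_right _ _)
    rw [lt_div_iff₀ hCw0] at h3
    linarith
  have hCr : (0 : ℝ) ≤ C * r := by positivity
  have hdr : (0 : ℝ) ≤ d * r := by positivity
  have hCwr : Cw * r = 2 * (C * r) + 7 * (d * r) + 13 * r := by
    rw [hCw]
    ring
  rw [← hr] at H1 H2 hflat hgapk ⊢
  rw [hlag] at bw
  rw [hlst] at o1
  have hφr1 : φ₁ * r ≤ φ * r := mul_le_mul_of_nonneg_right hφ1φ hr0.le
  have hφr4 : φ₁ * r ≤ 1 / 4 * r := mul_le_mul_of_nonneg_right hφ14 hr0.le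
  have hφr10 : 0 < φ₁ * r := mul_pos hφ10 hr0
  -- the gaps
  have hgap : ∀ v : ℝ, |v - g| ≤ Cw * r → |v - pG v| ≤ φ₁ * r := by
    intro v hv
    have h3 := hgapk v hv
    rw [Metric.infDist_zero_of_mem hgG, sub_zero, ← hp.dst v, abs_abs] at h3
    exact h3
  -- flatness
  have hfl : ∀ i < d, ∀ v ∈ G, |v - g| ≤ Cw * r → |(sn i v - v) - (sn i g - g)| ≤ φ₁ * r := by
    intro i hi v hv h3
    have h4 := hflat i hi v h3
    rw [hp.of_mem hv, hp.of_mem hgG] at h4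
    exact h4
  have hin : ∀ v : ℝ, b - r ≤ v → v ≤ o + r → |v - g| ≤ Cw * r := by
    intro v c1 c2
    rw [abs_le]
    constructor <;> linarith
  -- the heights at a record
  have hφr0 : 0 ≤ φ * r := by positivity
  have hts : ∀ x : ℝ, b + r ≤ x → x ≤ o →
      Pool.LA91.Few0 S' fp (Pool.RCD.vg x) yW (Pool.LA91.Qt.pi fun i : Fin d => Pool.LA91.qJet m
        ((range (i : ℕ)).image c) (c i) 0 b (sn i b - φ * r)
        ((sn i g - g) + x - 3 * (φ₁ * r) -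
          ((i : ℕ) + 1) * (2 * (2 * (φ₁ * r)) + 2 * (φ₁ * r) + φ₁ * r + φ * r))) := by
    intro x hx1 hx2
    refine Pool.LA91.few_tQt hpos' (Pool.LA91.few_pi hpos' fun i => Pool.LA91.Few0.few hpos' ?_)
    have h3 := abs_le.1 (hgap (x - φ₁ * r) (hin _ (by linarith) (by linarith)))
    have hx' : |pG (x - φ₁ * r) - g| ≤ Cw * r := hin _ (by linarith) (by linarith)
    have h4 := abs_le.1 (hfl i i.2 _ (hp.mem (x - φ₁ * r)) hx')
    refine Pool.LA91.hts0S htm' hpos' hW' hf hy (o := pG (x - φ₁ * r)) (φ := 2 * (φ₁ * r))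
      (ρ₀ := φ₁ * r) (ρ' := φ * r) (κ := φ₁ * r) hb (hp.mem _) (by linarith) (by linarith)
      (by linarith) (by positivity) hφr10.le hφr0 hφr10
      (fun v c1 c2 => ⟨pG v, hp.mem v, by
        rw [abs_sub_comm]
        exact hgap v (hin v (by linarith) (by linarith))⟩)
      (fun l hl v hv c1 c2 => ?_) i.2 le_rfl (by linarith) (by linarith)
    have e3 := abs_le.1 (hfl l hl v hv (hin v (by linarith) (by linarith)))
    have e4 := abs_le.1 (hfl l hl _ (hp.mem (x - φ₁ * r)) hx')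
    rw [abs_le]
    constructor <;> linarith [e3.1, e3.2, e4.1, e4.2]
  obtain ⟨Nh, hNh⟩ : ∃ Nh : ℝ → Fin d → ℝ, Nh = fun x (i : Fin d) => (sn i g - g) + x - 3 * (φ₁ * r) -
      ((i : ℕ) + 1) * (2 * (2 * (φ₁ * r)) + 2 * (φ₁ * r) + φ₁ * r + φ * r) := ⟨_, rfl⟩
  have hts' : ∀ x : ℝ, b + r ≤ x → x ≤ o → Pool.LA91.Few0 S' fp (Pool.RCD.vg x) yW (Pool.LA91.Qt.pi fun i : Fin d => Pool.LA91.qJet m
      ((range (i : ℕ)).image c) (c i) 0 b (sn i b - φ * r) (Nh x i)) := by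
    rw [hNh]
    exact hts
  have ho' : ∀ (J : ℕ) (F : Pool.KA.Fam m J), ∃ φ : Pool.GEN.LnT F → Pool.GEN.LnT F, ∀ ω,
      Pool.RCD.vg o J F ω = φ (Pool.RCD.vg ((oq : ℝ) + sh) J F ω) :=
    fun J F => Pool.RCD.vg_mono (by linarith) (by linarith) J F
  have ho3 : Pool.LA91.Few0 S' fp (Pool.RCD.vg ((oq : ℝ) + sh)) yW (Pool.LA91.Qt.pi fun i : Fin d => Pool.LA91.qJet m
      ((range (i : ℕ)).image c) (c i) 0 b (sn i b - φ * r) (Nh o i)) :=
    Pool.LA91.few_tQt hpos' (Pool.LA91.Few.up (f' := fp) (y' := yW) hpos' (fun J F => ⟨fun x => x, fun _ => rfl⟩) ho'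
      (fun J F => ⟨fun x => x, fun _ => rfl⟩) (Pool.LA91.Few0.few hpos' (hts' o (by linarith) le_rfl)))
  obtain ⟨e3, he3, H3⟩ := ho3.mx hpos' (κ / 8 * r) (by positivity)
  obtain ⟨e4, he4, H4⟩ := (hts' a (by linarith) (by linarith)).mx hpos' (κ / 8 * r)
    (by positivity)
  obtain ⟨k₂, hk₂, l1, l2, l3⟩ : ∃ k₂ : ℝ, 0 < k₂ ∧ k₂ ≤ m1 ∧ k₂ ≤ m2 ∧ k₂ ≤ κ / 8 * r / 2 :=
    ⟨min m1 (min m2 (κ / 8 * r / 2)), by positivity, min_le_left _ _,
      (min_le_right _ _).trans (min_le_left _ _), (min_le_right _ _).trans (min_le_right _ _)⟩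
  refine ⟨k₂, hk₂, fun D => ?_⟩
  obtain ⟨C₁, hlaw⟩ := Pool.W.LA91.tlo_law D d
  refine ⟨C₁, ?_⟩
  -- the complexity
  obtain ⟨Kp, hKD, hK1, hK2, hK3, hK4⟩ : ∃ Kp : ℕ, D ≤ Kp ∧ (∀ i : Fin d, |(P₁ i : ℝ)| + 3 ≤ Kp) ∧
      (∀ i : Fin d, |(P₂ i : ℝ)| + 3 ≤ Kp) ∧
      (∀ i : Fin d, |Nh o i| + 3 ≤ Kp) ∧ (∀ i : Fin d, |Nh a i| + 3 ≤ Kp) := by
    obtain ⟨Kp, hKp⟩ := exists_nat_ge ((D : ℝ) + ∑ i : Fin d, (|(P₁ i : ℝ)| + 3) +
      ∑ i : Fin d, (|(P₂ i : ℝ)| + 3) + ∑ i : Fin d, (|Nh o i| + 3) +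
      ∑ i : Fin d, (|Nh a i| + 3))
    have s0 : ∀ f : Fin d → ℝ, (0 : ℝ) ≤ ∑ i : Fin d, (|f i| + 3) := fun f =>
      Finset.sum_nonneg fun i _ => by positivity
    have s1 : ∀ (f : Fin d → ℝ) (i : Fin d), |f i| + 3 ≤ ∑ i : Fin d, (|f i| + 3) := fun f i =>
      Finset.single_le_sum (f := fun i => |f i| + 3) (fun i _ => by positivity)
        (Finset.mem_univ i)
    have a1 := s0 (fun i => (P₁ i : ℝ))
    have a2 := s0 (fun i => (P₂ i : ℝ))
    have a3 := s0 (Nh o)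
    have a4 := s0 (Nh a)
    have hD0 : (0 : ℝ) ≤ D := Nat.cast_nonneg D
    refine ⟨Kp, ?_, fun i => ?_, fun i => ?_, fun i => ?_, fun i => ?_⟩
    · have : (D : ℝ) ≤ Kp := by linarith
      exact_mod_cast this
    · have := s1 (fun i => (P₁ i : ℝ)) i
      linarith
    · have := s1 (fun i => (P₂ i : ℝ)) i
      linarith
    · have := s1 (Nh o) i
      linarith
    · have := s1 (Nh a) i
      linarith
  -- the fullness
  obtain ⟨a', ha'⟩ : ∃ a' : ℝ, a' = pG (a + φ₁ * r) := ⟨_, rfl⟩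
  have ha'G : a' ∈ G := by rw [ha']; exact hp.mem _
  have ha'1 : |a + φ₁ * r - a'| ≤ φ₁ * r := by
    rw [ha']
    exact hgap _ (hin _ (by linarith) (by linarith))
  rw [abs_le] at ha'1
  have ha'in : |a' - g| ≤ Cw * r := hin _ (by linarith) (by linarith)
  obtain ⟨u₁, rd, hrd, hch⟩ := hW'.ch a' ha'G
  have hfulc := hch.ful (φ * r) (by positivity)
  have htmc := Pool.LA91.tm_cls htm' (show 0 < κ / 8 * r by positivity)
  have hmx := Pool.LA91.mx_ex hpos' (hη' oq (by linarith) (by linarith)) k₂ hk₂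
  obtain ⟨J₁, hJ₁⟩ := exists_nat_ge (24 * d / (κ / 4 * r))
  refine Pool.S6C.Bas.mono (max 1 J₁) ((((H1 Kp).and (H2 Kp)).and ((H3 Kp).and (H4 Kp))).and
    ((hfulc.and htmc).and (hmx.and (Pool.LA91.pos_bas hpos')))) ?_
  rintro J hJ F A' ⟨⟨⟨H1, H2⟩, H3, H4⟩, ⟨H5, H6⟩, ⟨V₂, z2, hz2⟩, hA⟩ s gx e M Q n qe V V' v vL v'
    G₀ G₁ G₂ H₀ H₁' H₂' δ hv hv' N hgx' I hS'
  have hcl := Pool.K2S.isLaw_cond F.isLaw hA
  have hJ1 : 1 ≤ J := (le_max_left _ _).trans hJ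
  have hJR : (J₁ : ℝ) ≤ J := by exact_mod_cast (le_max_right _ _).trans hJ
  have hJ0 : (0 : ℝ) ≤ J := Nat.cast_nonneg J
  -- the closed part of the record
  have hcv : Pool.RCD.Cl2 (Pool.PB.ptr F J) (Pool.RCD.vg w J F) A' v := by
    have := hv.1
    rw [hfp] at this
    exact this
  have hcv' : Pool.RCD.Cl2 (Pool.PB.ptr F J) (Pool.RCD.vg a J F) A' v' := by
    have := hv'.1
    rw [hfp] at this
    exact this
  have hzo : Pool.RCD.Cl2 (Pool.PB.ptr F J) (Pool.RCD.vg ((oq : ℝ) + sh) J F) A' (Pool.LA91.zcF F d v v' G₀ G₁ G₂) :=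
    Pool.W.LA91.zc_cl2 I rfl rfl rfl (by linarith) wa (by linarith) (by linarith) hcv hcv'
  have hza : Pool.RCD.Cl2 (Pool.PB.ptr F J) (Pool.RCD.vg a' J F) A' (Pool.LA91.zcF F d v v' G₀ G₁ G₂) :=
    Pool.W.LA91.zc_cl2 I rfl rfl rfl (by linarith) wa (by linarith) (by linarith) hcv hcv'
  obtain ⟨⟨za, hza1⟩, zb, hzb⟩ := hza
  have hj0 : ∀ ω, A' ω → ∀ i < d, |Pool.LA91.ojet F (c i) 0 (G₀ (Pool.PB.ptr F J ω) i) ω| ≤ 2 ^ J := by
    intro ω hω i hi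
    rw [Pool.LA91.ojet_zero]
    refine (I.ch.pos ω hω i hi).trans ?_
    have h3 : (1 : ℝ) ≤ 2 ^ gx i := one_le_pow₀ (by norm_num)
    have h4 : (1 : ℝ) ≤ 2 ^ J := one_le_pow₀ (by norm_num)
    rw [div_le_iff₀ (by positivity)]
    nlinarith
  rw [← hφs] at hgx'
  rw [← hε] at N
  have hgx : ∀ e', 0 ≤ e' → ∀ i < d, ((sn i b - φ * r) - e') * J ≤ gx i := by
    intro e' he' i hi
    refine le_trans (mul_le_mul_of_nonneg_right (by linarith) hJ0) (hgx' i hi)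
  have hgxσ : ∀ e', 0 ≤ e' → ∀ i < d, ((sn i b - (σ : ℝ) / 20 * r) - e') * J ≤ gx i := by
    intro e' he' i hi
    refine le_trans (mul_le_mul_of_nonneg_right ?_ hJ0) (hgx' i hi)
    have h3 : φ * r ≤ (σ : ℝ) / 20 * r := mul_le_mul_of_nonneg_right (by linarith) hr0.le
    linarith
  -- the quantities
  have U1 := Pool.W.LA91.pi_jet I.ch I.cl0 (b := b) (e₀ := e1) (sn := fun i => sn i b - (σ : ℝ) / 20 * r)
    (K := Kp) (j := 1) (N := fun i => (P₁ i : ℝ)) hJ1 rfl (hgxσ e1 he1.le) hS'.jet hKD hK1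
  have U2 := Pool.W.LA91.pi_jet I.ch I.cl0 (b := b) (e₀ := e2) (sn := fun i => sn i b - (σ : ℝ) / 20 * r)
    (K := Kp) (j := 1) (N := fun i => (P₂ i : ℝ)) hJ1 rfl (hgxσ e2 he2.le) hS'.jet hKD hK2
  have U3 := Pool.W.LA91.pi_jet I.ch I.cl0 (b := b) (e₀ := e3) (sn := fun i => sn i b - φ * r) (K := Kp)
    (j := 0) (N := Nh o) hJ1 rfl (hgx e3 he3.le) hj0 hKD hK3
  have U4 := Pool.W.LA91.pi_jet I.ch I.cl0 (b := b) (e₀ := e4) (sn := fun i => sn i b - φ * r) (K := Kp)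
    (j := 0) (N := Nh a) hJ1 rfl (hgx e4 he4.le) hj0 hKD hK4
  have R3 := H3 V₂ z2 (hz2.mono l3) _ U3
  have R4 := H4 V' v' (hv'.mono l3) _ U4
  have R1 := H1 V v V₂ z2 (hv.mono l1) (hz2.mono l1) _ U1
  have R2 := H2 V v V₂ z2 (hv.mono l2) (hz2.mono l2) _ U2
  have hvz : Pool.Agent.H49.Ent.CH (Pool.Agent.H49.Ent.cond F.p A' True) v z2 ≤ k₂ * J := by
    obtain ⟨ψ, hψ⟩ := Pool.RCD.vg_mono (show w ≤ (oq : ℝ) + sh by linarith) (by linarith) J F
    exact hz2.2 _ v (hv.1.mono ⟨fun x => x, fun _ _ => rfl⟩ ⟨ψ, fun ω _ => hψ ω⟩)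
  have det2 : Pool.Agent.H49.Ent.Det (Pool.Agent.H49.Ent.cond F.p A' True) (fun ω => ((v ω, z2 ω), yW J F ω)) z2 :=
    fun ω ω' _ _ hh => by
      simp only [Prod.mk.injEq] at hh
      exact hh.1.2
  have det0 : Pool.Agent.H49.Ent.Det (Pool.Agent.H49.Ent.cond F.p A' True) (fun ω => ((v ω, z2 ω), yW J F ω))
      (fun _ => ()) := fun _ _ _ _ _ => rfl
  have R1' := Pool.LA91.free_det hcl.nonneg _ v z2 (yW J F) R1 hvz z2 (fun _ => ()) det2 det0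
  have R2' := Pool.LA91.free_det hcl.nonneg _ v z2 (yW J F) R2 hvz z2 (fun _ => ()) det2 det0
  rw [hyW] at R1' R2' R3 R4
  have strip : ∀ {T : Type} (W : F.Ω → T),
      Pool.Agent.H49.Ent.CH (Pool.Agent.H49.Ent.cond F.p A' True) z2 (fun ω => ((), W ω)) =
      Pool.Agent.H49.Ent.CH (Pool.Agent.H49.Ent.cond F.p A' True) z2 W := fun W =>
    Pool.Agent.H32.Dense.CH_congr hcl.nonneg (fun _ _ _ _ h => (Prod.ext_iff.mp h).1)
      (fun _ _ _ _ h => (Prod.ext_iff.mp h).1) (fun _ _ _ _ h => (Prod.ext_iff.mp h).2)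
      (fun _ _ _ _ h => Prod.ext rfl h)
  have strip2 : ∀ {T T' : Type} (U : F.Ω → T') (W : F.Ω → T),
      Pool.Agent.H49.Ent.CH (Pool.Agent.H49.Ent.cond F.p A' True) z2 (fun ω => (U ω, ((), W ω))) =
      Pool.Agent.H49.Ent.CH (Pool.Agent.H49.Ent.cond F.p A' True) z2 (fun ω => (U ω, W ω)) := fun U W =>
    Pool.Agent.H32.Dense.CH_congr hcl.nonneg (fun _ _ _ _ h => (Prod.ext_iff.mp h).1)
      (fun _ _ _ _ h => (Prod.ext_iff.mp h).1) (fun _ _ _ _ h => by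
        simp only [Prod.mk.injEq] at h ⊢
        exact ⟨h.1, h.2.2⟩)
      (fun _ _ _ _ h => by
        simp only [Prod.mk.injEq] at h ⊢
        exact ⟨h.1, trivial, h.2⟩)
  rw [strip, strip2] at R1' R2'
  have hke : κ / 16 * r * J + k₂ * J ≤ κ / 8 * r * J := by
    have := mul_le_mul_of_nonneg_right l3 hJ0
    linarith
  -- the fullness
  have R5 : ∀ i < d, (((1 - ((sn i g - g) + a)) - 4 * (φ * r)) * Real.log 2 * J) ≤
      Pool.Agent.H49.Ent.CH (Pool.Agent.H49.Ent.cond F.p A' True)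
      (fun ω => F.X J ω (c i)) (fun ω => ((fun l : Fin i => F.X J ω (c l)),
        (Pool.LA91.zcF F d v v' G₀ G₁ G₂ ω, F.W ω))) := by
    intro i hi
    have h3 := H5 _ za zb (fun ω hω => by
      rw [← hza1 ω hω, hzb ω hω]
      rfl) i (Nat.zero_le _) hi
    have h6 := abs_le.1 (hfl i hi a' ha'G ha'in)
    have h7 : 0 ≤ Real.log 2 * J := mul_nonneg (Real.log_nonneg one_le_two) hJ0
    have h8 : ((1 - ((sn i g - g) + a)) - 4 * (φ * r)) * (Real.log 2 * J) ≤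
        ((1 - sn i a') - φ * r) * (Real.log 2 * J) :=
      mul_le_mul_of_nonneg_right (by linarith [h6.2]) h7
    refine le_trans (le_of_eq_of_le (by ring) h8) (le_trans (le_of_eq (by ring)) (h3.trans
      (le_of_eq ?_)))
    refine Pool.Agent.H32.Dense.CH_congr hcl.nonneg (fun _ _ _ _ h => (Prod.ext_iff.mp h).1)
      (fun _ _ _ _ h => (Prod.ext_iff.mp h).1) ?_ ?_
    · intro ω ω' hω hω' hh
      have h4 := hzb ω (Pool.LA91.of_cond_pos hω)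
      have h5 := hzb ω' (Pool.LA91.of_cond_pos hω')
      unfold Pool.RCD.vg at h4 h5
      simp only [Prod.mk.injEq] at hh ⊢
      rw [h4, h5]
      exact hh
    · intro ω ω' hω hω' hh
      have h4 := hzb ω (Pool.LA91.of_cond_pos hω)
      have h5 := hzb ω' (Pool.LA91.of_cond_pos hω')
      unfold Pool.RCD.vg at h4 h5
      simp only [Prod.mk.injEq] at hh ⊢
      rw [h4, h5] at hh
      exact hh
  have hφr : φ * r ≤ ε / 20 * r := mul_le_mul_of_nonneg_right hφε hr0.le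
  have hεr : 0 < ε * r := by positivity
  have hφr00 : 0 < φ * r := by positivity
  have hdig : ∀ i : Fin d, 3 * (φ₁ * r) + ((i : ℕ) + 1 : ℝ) *
      (2 * (2 * (φ₁ * r)) + 2 * (φ₁ * r) + φ₁ * r + φ * r) ≤ ε * r := by
    intro i
    have h3 : ((i : ℕ) : ℝ) + 1 ≤ d + 1 := by
      have : ((i : ℕ) : ℝ) ≤ d := by exact_mod_cast i.2.le
      linarith
    have h4 := mul_le_mul_of_nonneg_right h3 hφr10.le
    have h4' := mul_le_mul_of_nonneg_right h3 hφr00.le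
    have h5 : (d + 1 : ℝ) * (φ * r) = ε / 20 * r := by
      rw [← mul_assoc, mul_comm (d + 1 : ℝ) φ, hφd]
    have h6 := mul_le_mul_of_nonneg_left hφr1 (show (0 : ℝ) ≤ d + 1 by positivity)
    linarith
  obtain ⟨E, hE⟩ : ∃ E : ℝ, E = ∑ i ∈ range d, |(sn i g - g) + b| := ⟨_, rfl⟩
  have hNN : Pool.LA91.TlN J d C₁ (ε * r * J) E 0 (fun i x => (sn i g - g) + x) (fun i => (P₁ i : ℝ))
      (fun i => (P₂ i : ℝ)) b w a o s gx e M Q n qe := by
    refine ⟨N.hs, N.hQ, N.hn, ?_, N.hQe, ?_, ?_, fun i hi => ?_, N.hM, N.hJ, N.hN⟩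
    · simp only [add_zero]
      exact N.hqe
    · simp only [add_zero]
      exact N.hP
    · simp only [add_zero]
      exact N.hPe
    · have h3 : |(sn i g - g) + b| ≤ E := by
        rw [hE]
        exact Finset.single_le_sum (f := fun i => |(sn i g - g) + b|)
          (fun i _ => abs_nonneg _) (Finset.mem_range.2 hi)
      have h4 : ((sn i g - g) + b - E) * J ≤ 0 :=
        mul_nonpos_of_nonpos_of_nonneg (by linarith [le_abs_self ((sn i g - g) + b)]) hJ0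
      exact h4.trans (Nat.cast_nonneg _)
  have hI : Pool.W.LA91.TlI F A' c d D e M gx ⌊(b + 0) * J⌋₊ ⌊(w + 0) * J⌋₊ ⌊(a + 0) * J⌋₊ v vL v'
      G₀ G₁ G₂ H₀ H₁' H₂' := by
    simp only [add_zero]
    exact I
  have hSS : Pool.LA91.TlS F A' c s d ⌊(w + 0) * J⌋₊ Q n qe G₀ δ := by
    simp only [add_zero]
    exact hS'
  have hb0 : 0 ≤ b := by
    obtain ⟨_, _, _, hchb⟩ := hW'.ch b hb
    exact hchb.w0
  have hfin := hlaw (κ := κ / 8 * r) (ε := ε * r) (φ := 4 * (φ * r)) (δ := δ) (sh := 0)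
    (sn := fun i x => (sn i g - g) + x)
    (P₁ := fun i => (P₁ i : ℝ)) (P₂ := fun i => (P₂ i : ℝ)) (z2 := z2)
    (No := Nh o) (Na := Nh a)
    hA hch.inj (by linarith) (by linarith) (by linarith) (by positivity) hεr (by linarith)
    (fun i hi => by
      simp only [add_sub_cancel_right, sub_self, abs_zero]
      positivity)
    (fun i hi => by
      simp only [add_sub_cancel_right, sub_self, abs_zero]
      positivity)
    (fun i => by
      rw [hNh]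
      simp only
      linarith [hdig i]) (fun i => by
      rw [hNh]
      simp only
      linarith [hdig i]) hNN hI hSS R5
    H6 (by linarith) (by linarith) R3 (by
      refine (hz2.2 _ _ (by rw [hfp]; exact hzo)).trans ?_
      exact mul_le_mul_of_nonneg_right (by linarith [show 0 < κ / 8 * r by positivity]) hJ0) R4
  simp only [add_zero] at hfin
  -- the errors
  have hle : 4 * (κ / 8 * r) * J + 6 * (d * (5 * (ε * r) * J + 4)) + d * (5 * (ε * r) * J) ≤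
      κ * r * J := by
    have h3 : 24 * d ≤ κ / 4 * r * J := by
      have h4 := hJ₁.trans hJR
      rw [div_le_iff₀ (by positivity)] at h4
      linarith
    have h5 : (d : ℝ) * (ε * r * J) ≤ κ / 140 * r * J := by
      have h6 : ε * d ≤ κ / 140 := by
        have : ε * (d : ℝ) ≤ ε * (d + 1) := mul_le_mul_of_nonneg_left (by linarith) hε0.le
        linarith
      have h7 := mul_le_mul_of_nonneg_right (mul_le_mul_of_nonneg_right h6 hr0.le) hJ0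
      linarith
    have h8 : 0 ≤ κ * r * J := by positivity
    linarith
  exact ⟨by linarith [hfin.Tfull], by linarith [hfin.afew], by linarith [hfin.fr],
    by linarith [hfin.frT], by linarith [hfin.full]⟩

end Pool.W.LA91
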